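import Pool.Agent.Work.MP_1f68be_co.KB.Stmts

/-!
# MP_1f68be_co, block KB, item KB: vertices of the cyclic polytope
-/

open scoped InnerProductSpace
open Filter Topology

namespace Pool.Agent.Work.MP_1f68be_co.KB

open Pool.Agent.Work.MP_1f68be_co Finset

theorem pr_KB : St_KB := by
  intro d hd t
  let l : E d →L[ℝ] ℝ := (2 * (t : ℝ)) • (EuclideanSpace.proj (⟨0, by omega⟩ : Fin d))
    - (EuclideanSpace.proj (⟨1, by omega⟩ : Fin d))
  have hl : ∀ s : ℕ, l (gam d s) = 2 * (t : ℝ) * s - (s : ℝ) ^ 2 := by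
    intro s
    simp [l, gam]
  refine ⟨l, fun s hs => ?_⟩
  rw [hl, hl]
  have h1 : (1 : ℝ) ≤ ((s : ℝ) - t) ^ 2 := by
    rcases lt_or_gt_of_ne hs with h | h
    · have h2 : (s : ℝ) + 1 ≤ t := by exact_mod_cast h
      nlinarith
    · have h2 : (t : ℝ) + 1 ≤ s := by exact_mod_cast h
      nlinarith
  nlinarith

end Pool.Agent.Work.MP_1f68be_co.KB
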