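import Pool.Agent.Work.MP_1f68be_co.KB.Stmts

/-!
# MP_1f68be_co, block KB, item KC: general position
-/

open scoped InnerProductSpace
open Filter Topology

namespace Pool.Agent.Work.MP_1f68be_co.KB

open Pool.Agent.Work.MP_1f68be_co Finset

namespace IKC

/-- a functional on the moment curve as a polynomial -/
theorem l_gam (d : ℕ) (l : E d →L[ℝ] ℝ) (t : ℕ) :
    l (gam d t) = ∑ i : Fin d, l (EuclideanSpace.single i (1 : ℝ)) * (t : ℝ) ^ ((i : ℕ) + 1) := by
  have h1 : gam d t = ∑ i : Fin d, ((t : ℝ) ^ ((i : ℕ) + 1)) • EuclideanSpace.single i (1 : ℝ) := by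
    ext j
    simp [gam, Finset.sum_apply, Pi.single_apply]
  rw [h1, map_sum]
  apply Finset.sum_congr rfl
  intro i _
  rw [map_smul, smul_eq_mul, mul_comm]

theorem zero_of_roots (d : ℕ) (S : Finset ℕ) (l : E d →L[ℝ] ℝ) (M : ℝ) (hS : d < S.card)
    (h : ∀ s ∈ S, l (gam d s) = M) : l = 0 := by
  classical
  let P : Polynomial ℝ := (∑ i : Fin d, Polynomial.C (l (EuclideanSpace.single i (1 : ℝ))) *
    Polynomial.X ^ ((i : ℕ) + 1)) - Polynomial.C M
  have hdeg : P.natDegree ≤ d := by
    refine (Polynomial.natDegree_sub_le _ _).trans (max_le ?_ (by simp))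
    refine Polynomial.natDegree_sum_le_of_forall_le _ _ fun i _ => ?_
    refine (Polynomial.natDegree_C_mul_X_pow_le _ _).trans ?_
    have := i.2
    omega
  have hroot : ∀ s ∈ S, P.eval (s : ℝ) = 0 := by
    intro s hs
    have := h s hs
    rw [l_gam] at this
    simp only [P, Polynomial.eval_sub, Polynomial.eval_finsetSum, Polynomial.eval_mul,
      Polynomial.eval_C, Polynomial.eval_pow, Polynomial.eval_X]
    rw [this, sub_self]
  have hP : P = 0 := by
    by_contra hne
    have h1 : (S.image (fun s : ℕ => (s : ℝ))).card ≤ P.natDegree := by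
      refine (Finset.card_le_card ?_).trans (Polynomial.card_roots' P |>.trans' (Multiset.toFinset_card_le _))
      intro y hy
      rw [Finset.mem_image] at hy
      obtain ⟨s, hs, rfl⟩ := hy
      rw [Multiset.mem_toFinset, Polynomial.mem_roots hne]
      exact hroot s hs
    rw [Finset.card_image_of_injective _ Nat.cast_injective] at h1
    omega
  have hcoef : ∀ i : Fin d, l (EuclideanSpace.single i (1 : ℝ)) = 0 := by
    intro i
    have h1 : P.coeff ((i : ℕ) + 1) = l (EuclideanSpace.single i (1 : ℝ)) := by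
      simp only [P, Polynomial.coeff_sub, Polynomial.finsetSum_coeff, Polynomial.coeff_C_mul,
        Polynomial.coeff_X_pow, Polynomial.coeff_C]
      simp [Fin.val_inj]
    rw [← h1, hP, Polynomial.coeff_zero]
  ext z
  have hz : z = ∑ i : Fin d, (z i) • EuclideanSpace.single i (1 : ℝ) := by
    ext j
    simp [Finset.sum_apply, Pi.single_apply]
  rw [hz, map_sum]
  simp [hcoef]

theorem affInd (d : ℕ) (S : Finset ℕ) (hS : S.card ≤ d + 1) :
    AffineIndependent ℝ (fun s : S => gam d (s : ℕ)) := by
  classical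
  rw [affineIndependent_iff]
  intro R w hw0 hw1 i hi
  -- extend the weights
  have hq : ∀ q : Polynomial ℝ, q.natDegree ≤ d → ∑ s ∈ R, w s * q.eval ((s : ℕ) : ℝ) = 0 := by
    intro q hq
    have h1 : ∀ s : S, q.eval ((s : ℕ) : ℝ) = q.coeff 0 +
        ∑ i : Fin d, q.coeff ((i : ℕ) + 1) * (gam d (s : ℕ)) i := by
      intro s
      rw [Polynomial.eval_eq_sum_range' (Nat.lt_succ_of_le hq), Finset.sum_range_succ']
      simp [gam, Finset.sum_range, add_comm]
    have h2 : ∀ i : Fin d, ∑ s ∈ R, w s * (gam d (s : ℕ)) i = 0 := by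
      intro i
      have := congrArg (fun z : E d => z i) hw1
      simpa [Finset.sum_apply] using this
    calc ∑ s ∈ R, w s * q.eval ((s : ℕ) : ℝ)
        = ∑ s ∈ R, (w s * q.coeff 0 + ∑ i : Fin d, q.coeff ((i : ℕ) + 1) * (w s * (gam d (s : ℕ)) i)) := by
          apply Finset.sum_congr rfl
          intro s _
          rw [h1 s, mul_add, Finset.mul_sum]
          congr 1
          apply Finset.sum_congr rfl
          intro i _
          ring
      _ = (∑ s ∈ R, w s) * q.coeff 0 + ∑ i : Fin d, q.coeff ((i : ℕ) + 1) *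
            ∑ s ∈ R, w s * (gam d (s : ℕ)) i := by
          rw [Finset.sum_add_distrib, Finset.sum_comm, Finset.sum_mul]
          congr 1
          apply Finset.sum_congr rfl
          intro i _
          rw [Finset.mul_sum]
      _ = 0 := by
          rw [hw0, zero_mul, zero_add]
          apply Finset.sum_eq_zero
          intro i _
          rw [h2 i, mul_zero]
  have h3 := hq (∏ j ∈ R.erase i, (Polynomial.X - Polynomial.C (((j : ℕ) : ℝ)))) (by
    refine (Polynomial.natDegree_prod_le _ _).trans ?_
    simp only [Polynomial.natDegree_X_sub_C]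
    rw [Finset.sum_const, smul_eq_mul, mul_one, Finset.card_erase_of_mem hi]
    have h4 : R.card ≤ S.card := by
      refine (Finset.card_le_univ R).trans ?_
      rw [Fintype.card_coe]
    omega)
  rw [Finset.sum_eq_single_of_mem i hi] at h3
  · rcases mul_eq_zero.mp h3 with h4 | h4
    · exact h4
    · exfalso
      rw [Polynomial.eval_prod, Finset.prod_eq_zero_iff] at h4
      obtain ⟨j, hj, hj2⟩ := h4
      rw [Finset.mem_erase] at hj
      simp [sub_eq_zero] at hj2
      exact hj.1 hj2.symm
  · intro j hj hji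
    rw [Polynomial.eval_prod]
    apply mul_eq_zero_of_right
    apply Finset.prod_eq_zero (Finset.mem_erase.mpr ⟨hji, hj⟩)
    simp

end IKC

open IKC in
theorem pr_KC : St_KC := by
  intro d
  exact ⟨fun S l M hS h => zero_of_roots d S l M hS h, fun S hS => affInd d S hS⟩

end Pool.Agent.Work.MP_1f68be_co.KB
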