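import Pool.Agent.Work.MP_1f68be_co.KB.Stmts

/-!
# MP_1f68be_co, block KB, item KD: positive combinations are interior points
-/

open scoped InnerProductSpace
open Filter Topology

namespace Pool.Agent.Work.MP_1f68be_co.KB

open Pool.Agent.Work.MP_1f68be_co Finset

namespace IKD

/-- the centroid of an affinely independent set of `d + 1` points -/
theorem centroid_mem (d : ℕ) (x : ℕ → E d) (R : Finset ℕ) (hR : R.card = d + 1)
    (hai : AffineIndependent ℝ (fun s : R => x (s : ℕ))) :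
    ∑ r ∈ R, ((R.card : ℝ)⁻¹) • x r ∈ interior (convexHull ℝ (x '' (R : Set ℕ))) := by
  have hcard : Fintype.card R = Module.finrank ℝ (E d) + 1 := by
    rw [Fintype.card_coe, hR, finrank_euclideanSpace_fin]
  have htop : affineSpan ℝ (Set.range (fun s : R => x (s : ℕ))) = ⊤ :=
    hai.affineSpan_eq_top_iff_card_eq_finrank_add_one.2 hcard
  let b : AffineBasis R ℝ (E d) := ⟨fun s : R => x (s : ℕ), hai, htop⟩
  have h1 := b.centroid_mem_interior_convexHull
  have hne : (Finset.univ : Finset R).Nonempty := by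
    rw [Finset.univ_nonempty_iff]
    have : R.Nonempty := by
      rw [← Finset.card_pos, hR]
      omega
    exact this.coe_sort
  have h2 : Finset.univ.centroid ℝ b = ∑ r ∈ R, ((R.card : ℝ)⁻¹) • x r := by
    rw [Finset.centroid_def, Finset.affineCombination_eq_linear_combination _ _ _
      (Finset.sum_centroidWeights_eq_one_of_nonempty ℝ _ hne)]
    have h3 : ∀ i : R, (Finset.univ : Finset R).centroidWeights ℝ i • b i =
        (fun r : ℕ => ((R.card : ℝ)⁻¹) • x r) (i : ℕ) := by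
      intro i
      rw [Finset.centroidWeights_apply, Finset.card_univ, Fintype.card_coe]
      rfl
    rw [Finset.sum_congr rfl fun i _ => h3 i]
    exact Finset.sum_coe_sort R fun r : ℕ => ((R.card : ℝ)⁻¹) • x r
  have h3 : Set.range b = x '' (R : Set ℕ) := by
    ext y
    constructor
    · rintro ⟨i, rfl⟩
      exact ⟨(i : ℕ), i.2, rfl⟩
    · rintro ⟨r, hr, rfl⟩
      exact ⟨⟨r, hr⟩, rfl⟩
  rw [h2, h3] at h1
  exact h1

end IKD

theorem pr_KD : St_KD := by
  intro d x S w hS hai hw hsum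
  obtain ⟨R, hRS, hR⟩ := Finset.exists_subset_card_eq (s := S) (n := d + 1) (by omega)
  have hRne : R.Nonempty := by
    rw [← Finset.card_pos, hR]
    omega
  obtain ⟨r0, hr0, hmin⟩ := Finset.exists_min_image R w hRne
  have hz := IKD.centroid_mem d x R hR (hai R hRS hR)
  have hz' : ∑ r ∈ R, ((R.card : ℝ)⁻¹) • x r ∈ interior (convexHull ℝ (x '' (S : Set ℕ))) :=
    interior_mono (convexHull_mono (Set.image_mono (by exact_mod_cast hRS))) hz
  obtain ⟨δ, hδ⟩ : ∃ δ : ℝ, δ = w r0 / 2 := ⟨_, rfl⟩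
  have hw0 := hw r0 (hRS hr0)
  have hδ0 : 0 < δ := by rw [hδ]; linarith
  have hcard : (0 : ℝ) < (R.card : ℝ) := by exact_mod_cast hRne.card_pos
  obtain ⟨t, ht⟩ : ∃ t : ℝ, t = (R.card : ℝ) * δ := ⟨_, rfl⟩
  have ht0 : 0 < t := by rw [ht]; exact mul_pos hcard hδ0
  have ht1 : t < 1 := by
    have h1 : (R.card : ℝ) * w r0 ≤ ∑ s ∈ R, w s := by
      rw [← nsmul_eq_mul]
      exact Finset.card_nsmul_le_sum R w (w r0) hmin
    have h2 : ∑ s ∈ R, w s ≤ ∑ s ∈ S, w s :=
      Finset.sum_le_sum_of_subset_of_nonneg hRS fun s hs _ => (hw s hs).le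
    rw [hsum] at h2
    rw [ht, hδ]
    linarith
  obtain ⟨u, hu⟩ : ∃ u : ℕ → ℝ, ∀ s, u s = (w s - if s ∈ R then δ else 0) / (1 - t) :=
    ⟨fun s => (w s - if s ∈ R then δ else 0) / (1 - t), fun _ => rfl⟩
  have hfil : S.filter (fun s => s ∈ R) = R := by
    ext s
    rw [Finset.mem_filter]
    exact ⟨fun h => h.2, fun h => ⟨hRS h, h⟩⟩
  have hu0 : ∀ s ∈ S, 0 ≤ u s := by
    intro s hs
    rw [hu]
    refine div_nonneg ?_ (by linarith)
    by_cases h : s ∈ R
    · rw [if_pos h]
      have := hmin s h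
      rw [hδ]
      linarith
    · rw [if_neg h]
      have := hw s hs
      linarith
  have hite : ∑ s ∈ S, (if s ∈ R then δ else 0) = t := by
    rw [← Finset.sum_filter, hfil, Finset.sum_const, nsmul_eq_mul, ht]
  have hu1 : ∑ s ∈ S, u s = 1 := by
    rw [Finset.sum_congr rfl fun s _ => hu s, ← Finset.sum_div, Finset.sum_sub_distrib, hsum,
      hite]
    exact div_self (by linarith)
  have hy : ∑ s ∈ S, u s • x s ∈ convexHull ℝ (x '' (S : Set ℕ)) :=
    (convex_convexHull ℝ _).sum_mem hu0 hu1 fun s hs =>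
      subset_convexHull ℝ _ ⟨s, by exact_mod_cast hs, rfl⟩
  have hfin := (convex_convexHull ℝ (x '' (S : Set ℕ))).combo_self_interior_mem_interior hy hz'
    (a := 1 - t) (b := t) (by linarith) ht0 (by ring)
  have e : (1 - t) • ∑ s ∈ S, u s • x s + t • ∑ r ∈ R, ((R.card : ℝ)⁻¹) • x r =
      ∑ s ∈ S, w s • x s := by
    have e1 : t • ∑ r ∈ R, ((R.card : ℝ)⁻¹) • x r = ∑ s ∈ S, (if s ∈ R then δ else 0) • x s := by
      rw [Finset.smul_sum]
      have e2 : ∑ s ∈ S, (if s ∈ R then δ else 0) • x s = ∑ s ∈ R, δ • x s := by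
        rw [← hfil, Finset.sum_filter, hfil]
        refine Finset.sum_congr rfl fun s _ => ?_
        by_cases h : s ∈ R
        · rw [if_pos h, if_pos h]
        · rw [if_neg h, if_neg h, zero_smul]
      rw [e2]
      refine Finset.sum_congr rfl fun s _ => ?_
      rw [smul_smul, ht, mul_comm (R.card : ℝ) δ, mul_assoc, mul_inv_cancel₀ hcard.ne', mul_one]
    rw [e1, Finset.smul_sum, ← Finset.sum_add_distrib]
    refine Finset.sum_congr rfl fun s _ => ?_
    rw [smul_smul, ← add_smul, hu, mul_div_cancel₀ _ (by linarith : (1 - t) ≠ 0)]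
    congr 1
    ring
  rw [e] at hfin
  exact hfin

end Pool.Agent.Work.MP_1f68be_co.KB
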