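import Pool.Agent.Work.MP_1f68be_co.KB.Stmts

/-!
# MP_1f68be_co, block KB, item KE (helper58): good `ε` exist
-/

set_option autoImplicit false

open scoped InnerProductSpace
open Filter Topology

namespace Pool.Agent.Work.MP_1f68be_co.KB

open Pool.Agent.Work.MP_1f68be_co Finset

namespace IKE

theorem ss_inj {d : ℕ} {J J' : Finset ℕ} (h : SS d J = SS d J') : J = J' := by
  have key : ∀ (K : Finset ℕ) (j : ℕ), 2 * j + 1 ∈ SS d K ↔ j ∈ K := by
    intro K j
    unfold SS
    rw [mem_union, mem_biUnion]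
    constructor
    · rintro (⟨i, hi, h⟩ | h)
      · simp only [mem_insert, mem_singleton] at h
        have : j = i := by omega
        rwa [this]
      · exfalso
        split_ifs at h
        · simp at h
        · simp at h
    · intro hj
      exact Or.inl ⟨j, hj, by simp⟩
  ext j
  rw [← key J j, ← key J' j, h]

theorem avg_lt {S : Finset ℕ} {f : ℕ → ℝ} {M : ℝ} (hle : ∀ s ∈ S, f s ≤ M)
    (hlt : ∃ s ∈ S, f s < M) : (S.card : ℝ)⁻¹ * ∑ s ∈ S, f s < M := by
  have hS : (0 : ℝ) < S.card := by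
    obtain ⟨s, hs, _⟩ := hlt
    exact_mod_cast card_pos.2 ⟨s, hs⟩
  have h1 : ∑ s ∈ S, f s < ∑ s ∈ S, M := sum_lt_sum hle hlt
  rw [sum_const, nsmul_eq_mul] at h1
  rw [inv_mul_lt_iff₀ hS]
  exact h1

theorem l_bar {d : ℕ} (J : Finset ℕ) (l : E d →L[ℝ] ℝ) :
    l (bar d J) = ((SS d J).card : ℝ)⁻¹ * ∑ s ∈ SS d J, l (gam d s) := by
  unfold bar
  rw [map_smul, map_sum, smul_eq_mul]

theorem l_cen {d k : ℕ} (l : E d →L[ℝ] ℝ) :
    l (cen d k) = ((TT k).card : ℝ)⁻¹ * ∑ s ∈ TT k, l (gam d s) := by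
  unfold cen
  rw [map_smul, map_sum, smul_eq_mul]

theorem l_pS {d k : ℕ} (ε : ℝ) (J : Finset ℕ) (l : E d →L[ℝ] ℝ) :
    l (pS d k ε J) = (1 + ε) * l (bar d J) - ε * l (cen d k) := by
  unfold pS
  rw [map_sub, map_smul, map_smul, smul_eq_mul, smul_eq_mul]

theorem pS_zero {d k : ℕ} (J : Finset ℕ) : pS d k 0 J = bar d J := by
  unfold pS
  simp

theorem pS_cont {d k : ℕ} (J : Finset ℕ) : Continuous fun ε : ℝ => pS d k ε J := by
  unfold pS
  fun_prop

/-- Positive combinations of more than `d` points of the moment curve. -/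
theorem inner {d k : ℕ} (hKC : St_KC) (hKD : St_KD) (S1 S2 : Finset ℕ) (h1 : S1 ⊆ TT k)
    (h2 : S2 ⊆ TT k) (hc : d < (S1 ∪ S2).card) (a b : ℝ) (ha : 0 < a) (hb : 0 < b)
    (hab : (S1.card : ℝ) * a + (S2.card : ℝ) * b = 1) :
    ∑ s ∈ S1, a • gam d s + ∑ s ∈ S2, b • gam d s ∈ interior (convexHull ℝ (AA d k)) := by
  have hK := hKD d (gam d) (S1 ∪ S2) (fun s => (if s ∈ S1 then a else 0) + if s ∈ S2 then b else 0)
    hc (fun R _ hR => (hKC d).2 R hR.le) (by
      intro s hs
      rcases mem_union.1 hs with h | h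
      · rw [if_pos h]
        by_cases h' : s ∈ S2
        · rw [if_pos h']; linarith
        · rw [if_neg h']; linarith
      · rw [if_pos h]
        by_cases h' : s ∈ S1
        · rw [if_pos h']; linarith
        · rw [if_neg h']; linarith) (by
      rw [sum_add_distrib, sum_ite_mem, sum_ite_mem, union_inter_cancel_left,
        union_inter_cancel_right, sum_const, sum_const, nsmul_eq_mul, nsmul_eq_mul]
      exact hab)
  have e : ∑ s ∈ S1 ∪ S2, ((if s ∈ S1 then a else 0) + if s ∈ S2 then b else 0) • gam d s =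
      ∑ s ∈ S1, a • gam d s + ∑ s ∈ S2, b • gam d s := by
    simp only [add_smul, ite_smul, zero_smul]
    rw [sum_add_distrib, sum_ite_mem, sum_ite_mem, union_inter_cancel_left,
      union_inter_cancel_right]
  rw [e] at hK
  refine interior_mono (convexHull_mono ?_) hK
  unfold AA
  apply Set.image_mono
  rw [coe_subset]
  exact union_subset h1 h2

theorem half_bar {d : ℕ} (J : Finset ℕ) (hJ : (SS d J).card = d) :
    (1 / 2 : ℝ) • bar d J = ∑ s ∈ SS d J, ((1 : ℝ) / (2 * d)) • gam d s := by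
  unfold bar
  rw [hJ, smul_smul, smul_sum]
  refine sum_congr rfl fun s _ => ?_
  congr 1
  rw [one_div_mul_eq_div, div_eq_mul_inv, one_div, mul_inv, mul_comm]

/-- A point of the interior stays there for small `ε`. -/
theorem ev_int {d k : ℕ} (f : ℝ → E d) (hf : Continuous f)
    (h0 : f 0 ∈ interior (convexHull ℝ (AA d k))) :
    ∀ᶠ ε in 𝓝[>] (0 : ℝ), f ε ∈ interior (convexHull ℝ (AA d k)) :=
  nhdsWithin_le_nhds (hf.continuousAt.eventually_mem (isOpen_interior.mem_nhds h0))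

theorem ev_lt {f : ℝ → ℝ} (hf : Continuous f) {M : ℝ} (h0 : f 0 < M) :
    ∀ᶠ ε in 𝓝[>] (0 : ℝ), f ε < M :=
  nhdsWithin_le_nhds (hf.continuousAt.eventually_lt continuousAt_const h0)

end IKE

open IKE in
/-- Item KE. -/
theorem pr_KE (hKA : St_KA) (hKB : St_KB) (hKC : St_KC) (hKD : St_KD) : St_KE := by
  intro d k hd hdk
  have hd0 : (0 : ℝ) < d := by exact_mod_cast (by omega : 0 < d)
  have hTT : (TT k).card = 2 * k + 1 := by unfold TT; rw [card_range]
  -- a point of `TT k` outside a facet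
  have hout : ∀ J ∈ JJ d k, ∃ t ∈ TT k, t ∉ SS d J := by
    intro J hJ
    obtain ⟨h1, h2, _⟩ := hKA d k J hJ
    by_contra hne
    push Not at hne
    have h3 := card_le_card (show TT k ⊆ SS d J from hne)
    omega
  have hout2 : ∀ J ∈ JJ d k, ∀ J' ∈ JJ d k, J' ≠ J → ∃ s ∈ SS d J', s ∉ SS d J := by
    intro J hJ J' hJ' hne
    obtain ⟨h1, _, _⟩ := hKA d k J hJ
    obtain ⟨h2, _, _⟩ := hKA d k J' hJ'
    by_contra hne'
    push Not at hne'
    exact hne (ss_inj (eq_of_subset_of_card_le hne' (by omega)))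
  have e1 : ∀ᶠ ε in 𝓝[>] (0 : ℝ), ∀ J ∈ JJ d k, ∃ l : E d →L[ℝ] ℝ, ∃ M : ℝ,
      (∀ s ∈ SS d J, l (gam d s) = M) ∧ M < l (pS d k ε J) ∧ (∀ t ∈ TT k, l (gam d t) ≤ M) ∧
      ∀ J' ∈ JJ d k, J' ≠ J → l (pS d k ε J') < M := by
    rw [Filter.eventually_all_finset]
    intro J hJ
    obtain ⟨hc, hs, l, M, hM, hlt⟩ := hKA d k J hJ
    have hle : ∀ t, l (gam d t) ≤ M := fun t => by
      by_cases h : t ∈ SS d J
      · exact (hM t h).le
      · exact (hlt t h).le
    have hbar : l (bar d J) = M := by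
      rw [l_bar, sum_congr rfl hM, sum_const, nsmul_eq_mul, hc, ← mul_assoc,
        inv_mul_cancel₀ hd0.ne', one_mul]
    have hcen : l (cen d k) < M := by
      rw [l_cen]
      obtain ⟨t, ht, ht'⟩ := hout J hJ
      exact avg_lt (fun s _ => hle s) ⟨t, ht, hlt t ht'⟩
    have hev : ∀ᶠ ε in 𝓝[>] (0 : ℝ), ∀ J' ∈ JJ d k, J' ≠ J → l (pS d k ε J') < M := by
      rw [Filter.eventually_all_finset]
      intro J' hJ'
      by_cases hne : J' = J
      · exact Filter.Eventually.of_forall fun _ h => absurd hne h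
      · have h0 : l (pS d k 0 J') < M := by
          rw [pS_zero, l_bar]
          obtain ⟨s, hs1, hs2⟩ := hout2 J hJ J' hJ' hne
          exact avg_lt (fun s _ => hle s) ⟨s, hs1, hlt s hs2⟩
        filter_upwards [ev_lt (l.continuous.comp (pS_cont J')) h0] with ε hε _
        exact hε
    filter_upwards [hev, self_mem_nhdsWithin] with ε hε hpos
    rw [Set.mem_Ioi] at hpos
    refine ⟨l, M, hM, ?_, fun t _ => hle t, hε⟩
    rw [l_pS, hbar]
    nlinarith
  have e2 : ∀ᶠ ε in 𝓝[>] (0 : ℝ), ∀ t ∈ TT k, ∃ l : E d →L[ℝ] ℝ,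
      (∀ s ∈ TT k, s ≠ t → l (gam d s) < l (gam d t)) ∧
      ∀ J ∈ JJ d k, l (pS d k ε J) < l (gam d t) := by
    rw [Filter.eventually_all_finset]
    intro t _
    obtain ⟨l, hl⟩ := hKB d hd t
    have hev : ∀ᶠ ε in 𝓝[>] (0 : ℝ), ∀ J ∈ JJ d k, l (pS d k ε J) < l (gam d t) := by
      rw [Filter.eventually_all_finset]
      intro J hJ
      obtain ⟨hc, _, _⟩ := hKA d k J hJ
      have h0 : l (pS d k 0 J) < l (gam d t) := by
        rw [pS_zero, l_bar]
        refine avg_lt (fun s _ => ?_) ?_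
        · by_cases h : s = t
          · rw [h]
          · linarith [hl s h]
        · obtain ⟨s, hs, hst⟩ := exists_mem_ne (show 1 < (SS d J).card by omega) t
          exact ⟨s, hs, by linarith [hl s hst]⟩
      exact ev_lt (l.continuous.comp (pS_cont J)) h0
    filter_upwards [hev] with ε hε
    exact ⟨l, fun s _ hs => by linarith [hl s hs], hε⟩
  have e3 : ∀ᶠ ε in 𝓝[>] (0 : ℝ), ∀ J ∈ JJ d k, ∀ t ∈ TT k, t ∉ SS d J →
      (1 / 2 : ℝ) • pS d k ε J + (1 / 2 : ℝ) • gam d t ∈ interior (convexHull ℝ (AA d k)) := by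
    rw [Filter.eventually_all_finset]
    intro J hJ
    rw [Filter.eventually_all_finset]
    intro t ht
    by_cases htJ : t ∈ SS d J
    · exact Filter.Eventually.of_forall fun _ h => absurd htJ h
    obtain ⟨hc, hs, _⟩ := hKA d k J hJ
    have hin := inner (d := d) (k := k) hKC hKD (SS d J) {t} hs (singleton_subset_iff.2 ht) (by
      rw [union_comm, ← insert_eq, card_insert_of_notMem htJ]; omega) (1 / (2 * d)) (1 / 2)
      (by positivity) (by norm_num) (by
        rw [hc, card_singleton]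
        field_simp
        norm_num)
    rw [← half_bar J hc, sum_singleton] at hin
    have h0 := ev_int (d := d) (k := k)
      (fun ε => (1 / 2 : ℝ) • pS d k ε J + (1 / 2 : ℝ) • gam d t)
      (by have := pS_cont (d := d) (k := k) J; fun_prop) (by rw [pS_zero]; exact hin)
    filter_upwards [h0] with ε hε _
    exact hε
  have e4 : ∀ᶠ ε in 𝓝[>] (0 : ℝ), ∀ J ∈ JJ d k, ∀ J' ∈ JJ d k, J ≠ J' →
      (1 / 2 : ℝ) • pS d k ε J + (1 / 2 : ℝ) • pS d k ε J' ∈
        interior (convexHull ℝ (AA d k)) := by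
    rw [Filter.eventually_all_finset]
    intro J hJ
    rw [Filter.eventually_all_finset]
    intro J' hJ'
    by_cases hne : J = J'
    · exact Filter.Eventually.of_forall fun _ h => absurd hne h
    obtain ⟨hc, hs, _⟩ := hKA d k J hJ
    obtain ⟨hc', hs', _⟩ := hKA d k J' hJ'
    have hin := inner (d := d) (k := k) hKC hKD (SS d J) (SS d J') hs hs' (by
      obtain ⟨s, h1, h2⟩ := hout2 J hJ J' hJ' (Ne.symm hne)
      have h3 : (insert s (SS d J)).card ≤ (SS d J ∪ SS d J').card :=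
        card_le_card (insert_subset (mem_union_right _ h1) subset_union_left)
      rw [card_insert_of_notMem h2] at h3
      omega) (1 / (2 * d)) (1 / (2 * d))
      (by positivity) (by positivity) (by
        rw [hc, hc']
        field_simp
        norm_num)
    rw [← half_bar J hc, ← half_bar J' hc'] at hin
    have h0 := ev_int (d := d) (k := k)
      (fun ε => (1 / 2 : ℝ) • pS d k ε J + (1 / 2 : ℝ) • pS d k ε J')
      (by have := pS_cont (d := d) (k := k) J; have := pS_cont (d := d) (k := k) J'; fun_prop)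
      (by rw [pS_zero, pS_zero]; exact hin)
    filter_upwards [h0] with ε hε _
    exact hε
  have hall := (((e1.and e2).and e3).and e4).and
    (self_mem_nhdsWithin : ∀ᶠ ε in 𝓝[>] (0 : ℝ), ε ∈ Set.Ioi (0 : ℝ))
  obtain ⟨ε, ⟨⟨⟨h1, h2⟩, h3⟩, h4⟩, h5⟩ := hall.exists
  exact ⟨ε, h5, ⟨h1, h2, h3, h4⟩⟩

end Pool.Agent.Work.MP_1f68be_co.KB
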