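import Pool.Agent.Work.MP_1f68be_co.KB.Defs

/-!
# MP_1f68be_co, block KB: statements

Every docstring is the complete proof.
-/

open scoped InnerProductSpace
open Filter Topology

namespace Pool.Agent.Work.MP_1f68be_co.KB

open Pool.Agent.Work.MP_1f68be_co Finset

/-- KA (EASY-MEDIUM), facets of the cyclic polytope.  For `J ⊆ range k` the elements of `SS d J` are the
`2 j + 1, 2 j + 2`, `j ∈ J`, all different (and `0` for odd `d`), so for `J.card = d / 2` the set has
`2 (d / 2) + d % 2 = d` elements, and they are at most `2 k`.  Functional: let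
`g (t) = ∏_(j ∈ J) (t - (2 j + 1)) (t - (2 j + 2))` (times `t` if `d` is odd), a polynomial of degree `d`
(write it as a `Polynomial ℝ` of `natDegree ≤ d`).  At natural numbers `t` every factor
`(t - a) (t - a - 1)` is nonnegative and vanishes exactly for `t = a, a + 1`; so `g (t) ≥ 0` with
equality exactly on `SS d J`.  Put `l (x) = - ∑_(i < d) (coeff g (i + 1)) x_i`, `M = coeff g 0`; then
`l (gam d t) = M - g (t)`. -/
def St_KA : Prop := ∀ d k : ℕ, ∀ J ∈ JJ d k, (SS d J).card = d ∧ SS d J ⊆ TT k ∧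
  ∃ l : E d →L[ℝ] ℝ, ∃ M : ℝ, (∀ s ∈ SS d J, l (gam d s) = M) ∧
    ∀ t : ℕ, t ∉ SS d J → l (gam d t) < M

/-- KB (EASY), vertices of the cyclic polytope.  `l (x) = 2 t x_0 - x_1`:
`l (gam d s) = 2 t s - s ^ 2 = t ^ 2 - (s - t) ^ 2` and `(s - t) ^ 2 ≥ 1` for different natural
numbers. -/
def St_KB : Prop := ∀ d : ℕ, 2 ≤ d → ∀ t : ℕ, ∃ l : E d →L[ℝ] ℝ, ∀ s : ℕ, s ≠ t →
  l (gam d s) + 1 ≤ l (gam d t)

/-- KC (EASY-MEDIUM), general position.  (1) A functional `l` with `l (gam d s) = M` for more than `d`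
parameters: the polynomial `∑ l (e_i) t ^ (i + 1) - M` of degree at most `d` has more than `d` roots, so
it is `0` and all `l (e_i) = 0`.  (2) Affine independence for at most `d + 1` parameters: Vandermonde
(`Matrix.det_vandermonde_ne_zero_iff`): if `∑ w_s = 0` and `∑ w_s s ^ (i + 1) = 0` for `i < d` then
`∑ w_s q (s) = 0` for every polynomial `q` of degree at most `d`; take for `q` the Lagrange basis
polynomial (degree at most `d`, `1` at `s`, `0` at the other parameters), so `w_s = 0`. -/
def St_KC : Prop := ∀ d : ℕ,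
  (∀ (S : Finset ℕ) (l : E d →L[ℝ] ℝ) (M : ℝ), d < S.card → (∀ s ∈ S, l (gam d s) = M) → l = 0) ∧
  (∀ S : Finset ℕ, S.card ≤ d + 1 → AffineIndependent ℝ (fun s : S => gam d (s : ℕ)))

/-- KD (MEDIUM), positive combinations are interior points.  Let `R ⊆ S` with `R.card = d + 1`
(`Finset.exists_subset_card_eq`).  The points `x r`, `r ∈ R`, are affinely independent, so they form an
affine basis of `E d` and their centroid `z` is in the interior of their convex hull
(`AffineBasis.interior_convexHull` or `AffineBasis.centroid_mem_interior_convexHull`), so in the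
interior of `convexHull ℝ (x '' S)`.  For small `δ > 0` the point `y = (p - δ z) / (1 - δ)`,
`p = ∑_S w_s x_s`, is a convex combination of the `x s`, `s ∈ S`, with the weights
`(w_s - δ [s ∈ R] / (d + 1)) / (1 - δ) ≥ 0`.  So `p = (1 - δ) y + δ z` is an interior point
(`Convex.combo_self_interior_mem_interior` or `Convex.openSegment_self_interior_subset_interior`). -/
def St_KD : Prop := ∀ (d : ℕ) (x : ℕ → E d) (S : Finset ℕ) (w : ℕ → ℝ), d < S.card →
  (∀ R ⊆ S, R.card = d + 1 → AffineIndependent ℝ (fun s : R => x (s : ℕ))) →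
  (∀ s ∈ S, 0 < w s) → ∑ s ∈ S, w s = 1 → ∑ s ∈ S, w s • x s ∈ interior (convexHull ℝ (x '' (S : Set ℕ)))

/-- KE (MEDIUM), good `ε` exist.  All four properties are conditions for finitely many `J, J', t`; each
holds for all small `ε > 0` (`Filter.eventually_all_finset`, `nhdsWithin`; `pS d k ε J` is continuous in
`ε` and equals `bar d J` at `ε = 0`).  `expo`: `l, M` from KA; `l (bar d J) = M`, `l (cen d k) < M`
(an average of numbers `≤ M` over `TT k`, one of them `< M` because `TT k` has `2 k + 1 > d` elements),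
so `l (pS d k ε J) = (1 + ε) M - ε l (cen d k) > M` for every `ε > 0`; `l (bar d J') < M` for `J' ≠ J`
(`SS d J' ≠ SS d J` have the same number of elements, so some `s ∈ SS d J'` is not in `SS d J`;
`J ↦ SS d J` is injective: `j ∈ J` iff `2 j + 1 ∈ SS d J`), so `l (pS d k ε J') < M` for small `ε`.
`expoT`: `l` from KB; `l (bar d J) < l (gam d t)` because the average contains some `s ≠ t`
(`d ≥ 2` elements).  `mid1`: at `ε = 0` the point is `∑_(S ∪ {t}) w_s gam d s` with positive weights
(`1 / (2 d)` and `1 / 2`) and `d + 1` parameters: KD, KC (2), and `interior` is monotone.  `mid2`: at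
`ε = 0` the weights are `1/(2d)` or `1/d` on `SS d J ∪ SS d J'`, which has more than `d` elements.  The
interior is open.  USES KA KB KC KD. -/
def St_KE : Prop := ∀ d k : ℕ, 2 ≤ d → d ≤ 2 * k → ∃ ε : ℝ, 0 < ε ∧ Good d k ε

open Classical in
/-- KF (MEDIUM), the polytope.  `V = {gam d t : t ∈ TT k} ∪ {pS d k ε J : J ∈ JJ d k}` with `ε` from KE,
`A` the first part.  (0) A functional attaining its maximum over a set `X` at an interior point of
`convexHull ℝ X` is `0` (a nonzero functional is an open map, or move the point a little; on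
`convexHull ℝ X` the functional is at most the maximum).  (1) Convex position: by `expo`, `expoT` every
point of `V` is the only maximiser of a functional over `V`, so it is not in the convex hull of the
others (`convexHull_min` for the open half space); in particular the points are different, and
`V.card = (2 k + 1) + (k choose (d / 2))`.  (2) Spanning: `TT k` has more than `d` elements, KC (2).
(3) Let `B` be a face of `V`, `B ≠ V`, given by `l`, so `l ≠ 0`, and `l ≤ M` on `V` with equality exactly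
on `B`.  If `pS d k ε J ∈ B` and `y ∈ B`, `y ≠ pS d k ε J`: then `y = gam d s` with `s ∈ SS d J`, because
otherwise `mid1` or `mid2` gives an interior point of `convexHull ℝ (AA d k)` where `l = M`, and `l = 0`
by (0).  So `Indep V A` holds.  (4) Simplicial: if `pS d k ε J ∈ B` then `B` is a subset of
`{pS d k ε J} ∪ gam d '' SS d J`, which is affinely independent: `gam d '' SS d J` is (KC, `d` elements)
and `pS d k ε J` is not in its affine span, as the functional of `expo` is `M` on the span and `> M` at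
`pS d k ε J` (`AffineIndependent.affineIndependent_of_notMem_span`).  If `B` contains no stacked point then
`B = gam d '' R`, `R ⊆ TT k`, and `R` has at most `d` elements by KC (1); KC (2).
USES KA KC KE. -/
def St_KF : Prop := ∀ d k : ℕ, 2 ≤ d → d ≤ 2 * k → ∃ V A : Finset (E d), A ⊆ V ∧ A.Nonempty ∧
  A.card ≤ 2 * k + 1 ∧ IsPolytope V ∧ IsSimplicial V ∧ k.choose (d / 2) ≤ V.card ∧ Indep V A

/-- KG (EASY-MEDIUM), an improving face.  `x ∈ W` is not in the convex hull of the other points, so there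
is `h` with `h w < h x` for all `w ∈ W`, `w ≠ x` (`geometric_hahn_banach_point_compact` or
`geometric_hahn_banach_closed_point`; the convex hull of a finite set is compact).
`μ = max_(w ≠ x) (l w - l x) / (h x - h w)` is positive.  For
`g = l + μ h` and all `w ∈ W` one has `g w ≤ g x`, with equality exactly for `x` and the `w` where the
maximum is attained, and those have `l w > l x`.  So the maximisers of `g` form a face `B` as wanted,
unless `B = W`; then `g` is constant on `W`, which spans, so `g = 0`, `l = - μ h`.  In this case choose a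
functional `k'` which is not a multiple of `h` (`2 ≤ d`) and replace `h` by `h + δ k'`, `δ > 0` so small
that still `h w + δ k' w < h x + δ k' x` for `w ≠ x`; with the new maximum `μ'` the functional
`l + μ' (h + δ k') = (μ' - μ) h + μ' δ k'` is not `0`. -/
def St_KG : Prop := ∀ d : ℕ, 2 ≤ d → ∀ W : Finset (E d), IsPolytope W → ∀ x ∈ W,
  ∀ l : E d →L[ℝ] ℝ, (∃ y ∈ W, l x < l y) →
  ∃ B : Set (E d), IsFace (W : Set (E d)) B ∧ B ≠ (W : Set (E d)) ∧ x ∈ B ∧ ∃ y ∈ B, l x < l y

/-- KH (EASY-MEDIUM), sixty degrees.  For `p ≠ q` in `s` put `u = p - a`, `v = q - a`, nonzero.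
`‖u‖ ^ 2 = r ^ 2 + ‖a - c‖ ^ 2 - 2 ⟪p - c, a - c⟫ ≤ 2 r ^ 2 - 2 ⟪p - c, a - c⟫ ≤
2 r ^ 2 - 2 ⟪p - c, q - c⟫ = ‖p - q‖ ^ 2 = ‖u - v‖ ^ 2`, and the same for `v`.  So
`2 ⟪u, v⟫ = ‖u‖ ^ 2 + ‖v‖ ^ 2 - ‖u - v‖ ^ 2 ≤ min (‖u‖ ^ 2) (‖v‖ ^ 2) ≤ ‖u‖ ‖v‖`, and the unit vectors
`u / ‖u‖`, `v / ‖v‖` have distance at least `1`; in particular they are different, so `s` has as many
elements as the set of these unit vectors, at most `5 ^ d`
(`Besicovitch.card_le_of_separated`, norms at most `2`, `finrank ℝ (E d) = d`). -/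
def St_KH : Prop := ∀ (d : ℕ) (c a : E d) (r : ℝ) (s : Finset (E d)), (∀ p ∈ s, dist p c = r) →
  dist a c ≤ r → (∀ p ∈ s, p ≠ a) →
  (∀ p ∈ s, ∀ q ∈ s, p ≠ q → ⟪p - c, q - c⟫_ℝ ≤ ⟪p - c, a - c⟫_ℝ) → s.card ≤ 5 ^ d

/-- KI (MEDIUM), the bound.  Let `W, f, c, r` be as in the definition of `s0` and `A' = f '' A`
(`f` is a bijection `V → W`).  `I` = the points of `W` at distance `r` from `c`; those in `A'` are at most
`A.card`.  For `p ∈ I`, `p ∉ A'`, let `a (p) ∈ A'` be a point of the finite nonempty set `A'` where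
`⟪p - c, · - c⟫` is largest.  Claim: `⟪p - c, q - c⟫ ≤ ⟪p - c, a (p) - c⟫` for every `q ∈ W`,
`q ∉ A'`, `q ≠ p`.  Otherwise let `w ∈ W`, `w ≠ p`, maximise `l = ⟪p - c, ·⟫` over `W \ {p}`; then
`w ∉ A'`; and `l w < l p`, because `⟪p - c, w - c⟫ ≤ r ‖w - c‖ ≤ r ^ 2` with equality only for `w = p`
(equality in Cauchy-Schwarz, or: `‖p - w‖ ^ 2 = r ^ 2 + ‖w - c‖ ^ 2 - 2 ⟪p - c, w - c⟫ ≤
2 (r ^ 2 - ⟪p - c, w - c⟫)` and `p ≠ w`).  KG for `x = w`: a proper face `B` of `W` with `w ∈ B` and
`y ∈ B`, `l y > l w`, so `y = p` by the choice of `w`.  `B = f '' B'`, `B' ⊆ V`, is a face, so `B'` is a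
proper face of `V` (`CombEquiv`) containing the preimages of `w` and `p`, which are not in `A`: they are
equal by `Indep`, a contradiction.  So by KH (for `s` = the `p ∈ I`, `p ∉ A'`, with `a (p) = a`) every
`a ∈ A'` is `a (p)` for at most `5 ^ d` of the `p` (`Finset.card_le_mul_card_image`).  Total at most
`A.card + 5 ^ d * A.card`; `csSup_le'`.  USES KG KH. -/
def St_KI : Prop := ∀ d : ℕ, 2 ≤ d → ∀ V A : Finset (E d), A ⊆ V → A.Nonempty → IsPolytope V →
  Indep V A → s0 V ≤ (5 ^ d + 1) * A.card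

/-- KJ (MEDIUM), the exponent.  `m = d / 2 ≥ 2`.  For `k` large let `V_k, A_k` be as in KF.  Then
`s0 V_k ≤ (5 ^ d + 1) (2 k + 1)` (KI) and `V_k.card ≥ (k choose m) ≥ (k + 1 - m) ^ m / m!`
(`Nat.pow_le_choose`), so `log (s0 V_k) / log (V_k.card) ≤
(log (5 ^ d + 1) + log (2 k + 1)) / (m log (k + 1 - m) - log (m !))` (if `s0 V_k = 0` the left side is
`0`), which tends to `1 / m` for `k → ∞` (`log (2 k + 1) / log (k + 1 - m) → 1`).  The cardinalities tend
to infinity, so the `liminf` is at most `1 / m`: see `exponent_le` in the file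
`Pool/Agent/Results/MP_1f68be_co/InBall.lean`, which can be copied.  Second part: `d < 2 ^ (d / 2)` for
`6 ≤ d` (induction in steps of 2), so `log d < (d / 2) log 2` and `1 / m < log 2 / log d`.
USES KF KI. -/
def St_KJ : Prop := ∀ d : ℕ, 4 ≤ d →
  simplicialExponent d ≤ ((1 / ((d / 2 : ℕ) : ℝ) : ℝ) : EReal) ∧
  (6 ≤ d → simplicialExponent d < ((Real.log 2 / Real.log d : ℝ) : EReal))

end Pool.Agent.Work.MP_1f68be_co.KB
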