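import Mathlib
import Pool.Agent.Work.MP_1f68be_co.KB.Stmts

/-!
# MP_1f68be_co, block KB, item KF: the polytope
-/

set_option autoImplicit false

open scoped InnerProductSpace
open Filter Topology

namespace Pool.Agent.Work.MP_1f68be_co.KB

open Pool.Agent.Work.MP_1f68be_co Finset

namespace IKF

theorem lin0 {d : ℕ} (l : E d →L[ℝ] ℝ) (X : Set (E d)) (M : ℝ) (h : ∀ x ∈ X, l x ≤ M)
    (p : E d) (hp : p ∈ interior (convexHull ℝ X)) (hl : l p = M) : l = 0 := by
  have h1 : ∀ x ∈ convexHull ℝ X, l x ≤ M := by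
    intro x hx
    have h2 : convexHull ℝ X ⊆ {x | l x ≤ M} :=
      convexHull_min h (convex_halfSpace_le l.isLinear M)
    exact h2 hx
  have h2 : IsLocalMax (fun x => l x) p := by
    have h3 : interior (convexHull ℝ X) ∈ 𝓝 p := isOpen_interior.mem_nhds hp
    filter_upwards [h3] with x hx
    have h4 := h1 x (interior_subset hx)
    show l x ≤ l p
    rw [hl]
    exact h4
  exact h2.hasFDerivAt_eq_zero l.hasFDerivAt

theorem face_zero {d : ℕ} (V : Finset (E d)) (B : Set (E d)) (l : E d →L[ℝ] ℝ)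
    (hB : ∀ x, x ∈ B ↔ (x ∈ (V : Set (E d)) ∧ ∀ w ∈ (V : Set (E d)), l w ≤ l x)) (hl : l = 0) :
    B = (V : Set (E d)) := by
  ext x
  rw [hB x]
  constructor
  · exact fun h => h.1
  · intro h
    refine ⟨h, fun w _ => ?_⟩
    rw [hl]
    simp

theorem half_add {d : ℕ} (l : E d →L[ℝ] ℝ) (x y : E d) (M : ℝ) (hx : l x = M) (hy : l y = M) :
    l ((1 / 2 : ℝ) • x + (1 / 2 : ℝ) • y) = M := by
  rw [map_add, map_smul, map_smul, hx, hy, smul_eq_mul]
  ring

/-- the set of the points is affinely independent -/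
theorem aff1 {d : ℕ} (S : Finset ℕ) (q : E d)
    (hS : AffineIndependent ℝ (fun s : S => gam d (s : ℕ))) (l : E d →L[ℝ] ℝ) (M : ℝ)
    (hl : ∀ s ∈ S, l (gam d s) = M) (hq : M < l q) (B : Set (E d))
    (hB : ∀ y ∈ B, y = q ∨ ∃ s ∈ S, y = gam d s) :
    AffineIndependent ℝ (Subtype.val : B → E d) := by
  let p : Option S → E d := fun o => o.elim q (fun s => gam d (s : ℕ))
  have hp : AffineIndependent ℝ p := by
    refine AffineIndependent.affineIndependent_of_notMem_span (i := none) ?_ ?_
    · have h1 : AffineIndependent ℝ (fun s : S => gam d (s : ℕ)) := hS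
      let e : {y : Option S // y ≠ none} → S := fun y => y.1.get (Option.isSome_iff_ne_none.2 y.2)
      have he : Function.Injective e := by
        rintro ⟨y, hy⟩ ⟨z, hz⟩ h
        cases y with
        | none => exact absurd rfl hy
        | some a =>
          cases z with
          | none => exact absurd rfl hz
          | some b =>
            have h2 : a = b := h
            subst h2
            rfl
      have h3 := h1.comp_embedding ⟨e, he⟩
      have h4 : (fun x : {y : Option S // y ≠ none} => p x) =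
          (fun s : S => gam d (s : ℕ)) ∘ (⟨e, he⟩ : {y : Option S // y ≠ none} ↪ S) := by
        funext y
        rcases y with ⟨y, hy⟩
        cases y with
        | none => exact absurd rfl hy
        | some a => rfl
      rw [h4]
      exact h3
    · intro hmem
      have h5 : (affineSpan ℝ (p '' {x | x ≠ none}) : Set (E d)) ⊆ {x | l x = M} := by
        let H : AffineSubspace ℝ (E d) :=
          { carrier := {x | l x = M}
            smul_vsub_vadd_mem' := by
              intro c p1 p2 p3 h1 h2 h3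
              show l (c • (p1 -ᵥ p2) +ᵥ p3) = M
              have g1 : l p1 = M := h1
              have g2 : l p2 = M := h2
              have g3 : l p3 = M := h3
              rw [vadd_eq_add, vsub_eq_sub, map_add, map_smul, map_sub, g1, g2, g3]
              simp }
        have h7 : affineSpan ℝ (p '' {x | x ≠ none}) ≤ H := by
          rw [affineSpan_le]
          rintro y ⟨o, ho, rfl⟩
          cases o with
          | none => exact absurd rfl ho
          | some a => exact hl a a.2
        exact h7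
      have h8 := h5 hmem
      have h9 : l q = M := h8
      linarith
  have h10 := hp.range
  refine AffineIndependent.mono h10 ?_
  intro y hy
  rcases hB y hy with h | ⟨s, hs, h⟩
  · exact ⟨none, h.symm⟩
  · exact ⟨some ⟨s, hs⟩, h.symm⟩

end IKF

open IKF in
theorem pr_KF (hKA : St_KA) (hKC : St_KC) (hKE : St_KE) : St_KF := by
  classical
  intro d k hd hk
  obtain ⟨ε, hε, hG⟩ := hKE d k hd hk
  set A : Finset (E d) := (TT k).image (gam d) with hA
  set P : Finset (E d) := (JJ d k).image (pS d k ε) with hP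
  have hAV : A ⊆ A ∪ P := Finset.subset_union_left
  have hmemA : ∀ t ∈ TT k, gam d t ∈ A := fun t ht => Finset.mem_image_of_mem _ ht
  have hmemP : ∀ J ∈ JJ d k, pS d k ε J ∈ P := fun J hJ => Finset.mem_image_of_mem _ hJ
  have hVcases : ∀ x ∈ A ∪ P, (∃ t ∈ TT k, x = gam d t) ∨ ∃ J ∈ JJ d k, x = pS d k ε J := by
    intro x hx
    rcases Finset.mem_union.1 hx with h | h
    · obtain ⟨t, ht, rfl⟩ := Finset.mem_image.1 h
      exact Or.inl ⟨t, ht, rfl⟩
    · obtain ⟨J, hJ, rfl⟩ := Finset.mem_image.1 h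
      exact Or.inr ⟨J, hJ, rfl⟩
  have hTc : (TT k).card = 2 * k + 1 := Finset.card_range _
  -- every point is the only maximiser of a functional
  have hexp : ∀ x ∈ A ∪ P, ∃ l : E d →L[ℝ] ℝ, ∀ w ∈ A ∪ P, w ≠ x → l w < l x := by
    intro x hx
    rcases hVcases x hx with ⟨t, ht, rfl⟩ | ⟨J, hJ, rfl⟩
    · obtain ⟨l, h1, h2⟩ := hG.expoT t ht
      refine ⟨l, fun w hw hne => ?_⟩
      rcases hVcases w hw with ⟨s, hs, rfl⟩ | ⟨J, hJ, rfl⟩
      · exact h1 s hs (fun h => hne (by rw [h]))
      · exact h2 J hJ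
    · obtain ⟨l, M, h1, h2, h3, h4⟩ := hG.expo J hJ
      refine ⟨l, fun w hw hne => ?_⟩
      rcases hVcases w hw with ⟨s, hs, rfl⟩ | ⟨J', hJ', rfl⟩
      · exact lt_of_le_of_lt (h3 s hs) h2
      · exact lt_trans (h4 J' hJ' (fun h => hne (by rw [h]))) h2
  have hAAV : ∀ y ∈ AA d k, y ∈ A ∪ P := by
    rintro y ⟨t, ht, rfl⟩
    exact hAV (hmemA t ht)
  refine ⟨A ∪ P, A, hAV, ?_, ?_, ⟨?_, ?_⟩, ?_, ?_, ?_⟩
  · exact ⟨gam d 0, hmemA 0 (Finset.mem_range.2 (by omega))⟩
  · exact le_trans Finset.card_image_le (le_of_eq hTc)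
  · -- spanning
    obtain ⟨R, hR, hRc⟩ := Finset.exists_subset_card_eq (s := TT k) (n := d + 1)
      (by rw [hTc]; omega)
    have h1 : AffineIndependent ℝ (fun s : R => gam d (s : ℕ)) := (hKC d).2 R (le_of_eq hRc)
    have h2 : affineSpan ℝ (Set.range (fun s : R => gam d (s : ℕ))) = ⊤ := by
      rw [h1.affineSpan_eq_top_iff_card_eq_finrank_add_one]
      rw [Fintype.card_coe, hRc, finrank_euclideanSpace, Fintype.card_fin]
    rw [eq_top_iff, ← h2]
    refine affineSpan_mono ℝ ?_
    rintro y ⟨s, rfl⟩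
    exact hAV (hmemA _ (hR s.2))
  · -- convex position
    intro v hv hmem
    obtain ⟨l, hl⟩ := hexp v hv
    have h1 : convexHull ℝ (((A ∪ P : Finset (E d)) : Set (E d)) \ {v}) ⊆ {w | l w < l v} := by
      refine convexHull_min ?_ (convex_halfSpace_lt l.isLinear _)
      rintro w ⟨hw, hne⟩
      exact hl w hw hne
    exact lt_irrefl (l v) (h1 hmem)
  · -- simplicial
    rintro B ⟨l, hB⟩ hne
    by_cases hJ : ∃ J ∈ JJ d k, pS d k ε J ∈ B
    · obtain ⟨J, hJ, hJB⟩ := hJ
      obtain ⟨hc, hsub, -⟩ := hKA d k J hJ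
      obtain ⟨l', M', g1, g2, -, -⟩ := hG.expo J hJ
      have hS : AffineIndependent ℝ (fun s : SS d J => gam d (s : ℕ)) :=
        (hKC d).2 (SS d J) (by rw [hc]; omega)
      refine aff1 (SS d J) (pS d k ε J) hS l' M' g1 g2 B ?_
      intro y hy
      by_contra hcon
      push Not at hcon
      obtain ⟨hc1, hc2⟩ := hcon
      have hyV := ((hB y).1 hy).1
      have hpV := ((hB _).1 hJB).1
      have hmax := ((hB _).1 hJB).2
      have heq : l y = l (pS d k ε J) :=
        le_antisymm (hmax y hyV) (((hB y).1 hy).2 _ hpV)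
      have hle : ∀ x ∈ AA d k, l x ≤ l (pS d k ε J) := fun x hx => hmax x (hAAV x hx)
      rcases hVcases y hyV with ⟨t, ht, rfl⟩ | ⟨J', hJ', rfl⟩
      · have hts : t ∉ SS d J := fun h => hc2 t h rfl
        exact hne (face_zero _ B l hB (lin0 l (AA d k) _ hle _ (hG.mid1 J hJ t ht hts)
          (half_add l _ _ _ rfl heq)))
      · have hJJ : J ≠ J' := fun h => hc1 (by rw [h])
        exact hne (face_zero _ B l hB (lin0 l (AA d k) _ hle _ (hG.mid2 J hJ J' hJ' hJJ)
          (half_add l _ _ _ rfl heq)))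
    · push Not at hJ
      let R : Finset ℕ := (TT k).filter (fun t => gam d t ∈ B)
      have hBR : ∀ y ∈ B, ∃ s ∈ R, y = gam d s := by
        intro y hy
        rcases hVcases y ((hB y).1 hy).1 with ⟨t, ht, rfl⟩ | ⟨J', hJ', rfl⟩
        · exact ⟨t, Finset.mem_filter.2 ⟨ht, hy⟩, rfl⟩
        · exact absurd hy (hJ J' hJ')
      have hRc : R.card ≤ d := by
        by_contra hcon
        push Not at hcon
        have hRne : R.Nonempty := Finset.card_pos.1 (by omega)
        obtain ⟨t0, ht0⟩ := hRne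
        have ht0B : gam d t0 ∈ B := (Finset.mem_filter.1 ht0).2
        refine hne (face_zero _ B l hB ((hKC d).1 R l (l (gam d t0)) hcon ?_))
        intro s hs
        have hsB : gam d s ∈ B := (Finset.mem_filter.1 hs).2
        exact le_antisymm (((hB _).1 ht0B).2 _ ((hB _).1 hsB).1)
          (((hB _).1 hsB).2 _ ((hB _).1 ht0B).1)
      have h1 : AffineIndependent ℝ (fun s : R => gam d (s : ℕ)) := (hKC d).2 R (by omega)
      refine AffineIndependent.mono h1.range ?_
      intro y hy
      obtain ⟨s, hs, h⟩ := hBR y hy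
      exact ⟨⟨s, hs⟩, h.symm⟩
  · -- number of points
    have hinj : Set.InjOn (pS d k ε) (JJ d k : Set (Finset ℕ)) := by
      intro J hJ J' hJ' heq
      by_contra hne
      obtain ⟨l, M, h1, h2, h3, h4⟩ := hG.expo J hJ
      have h5 := h4 J' hJ' (fun h => hne h.symm)
      rw [← heq] at h5
      exact lt_irrefl _ (lt_trans h2 h5)
    have h1 : P.card = k.choose (d / 2) := by
      rw [hP, Finset.card_image_of_injOn hinj]
      unfold JJ
      rw [Finset.card_powersetCard, Finset.card_range]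
    rw [← h1]
    exact Finset.card_le_card Finset.subset_union_right
  · -- independence
    rintro B ⟨l, hB⟩ hne x hx y hy hxA hyA
    have hxV := ((hB x).1 hx).1
    have hyV := ((hB y).1 hy).1
    have hmax := ((hB x).1 hx).2
    rcases hVcases x hxV with ⟨t, ht, rfl⟩ | ⟨J, hJ, rfl⟩
    · exact absurd (hmemA t ht) hxA
    rcases hVcases y hyV with ⟨t, ht, rfl⟩ | ⟨J', hJ', rfl⟩
    · exact absurd (hmemA t ht) hyA
    by_contra hcon
    have hJJ : J ≠ J' := fun h => hcon (by rw [h])
    have heq : l (pS d k ε J') = l (pS d k ε J) :=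
      le_antisymm (hmax _ hyV) (((hB _).1 hy).2 _ hxV)
    have hle : ∀ x ∈ AA d k, l x ≤ l (pS d k ε J) := fun x hx => hmax x (hAAV x hx)
    exact hne (face_zero _ B l hB (lin0 l (AA d k) _ hle _ (hG.mid2 J hJ J' hJ' hJJ)
      (half_add l _ _ _ rfl heq)))

end Pool.Agent.Work.MP_1f68be_co.KB
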