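import Pool.Agent.Work.MP_1f68be_co.KB.Stmts

/-!
# MP_1f68be_co, block KB, item KG: an improving face
-/

open scoped InnerProductSpace
open Filter Topology

namespace Pool.Agent.Work.MP_1f68be_co.KB

open Pool.Agent.Work.MP_1f68be_co Finset

namespace IKG

variable {d : ℕ}

/-- an exposing functional of a vertex -/
theorem expose {W : Finset (E d)} (hW : IsPolytope W) {x : E d} (hx : x ∈ W) :
    ∃ h : E d →L[ℝ] ℝ, ∀ w ∈ W, w ≠ x → h w < h x := by
  have h1 := hW.2 x hx
  have hc : IsCompact (convexHull ℝ ((W : Set (E d)) \ {x})) :=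
    Set.Finite.isCompact_convexHull ℝ (W.finite_toSet.subset Set.sdiff_subset)
  obtain ⟨f, u, hu1, hu2⟩ := geometric_hahn_banach_closed_point (convex_convexHull ℝ _)
    hc.isClosed h1
  exact ⟨f, fun w hw hne => (hu1 w (subset_convexHull ℝ _ ⟨hw, hne⟩)).trans hu2⟩

/-- the face of maximal slope -/
theorem slope {W : Finset (E d)} {x : E d} (hx : x ∈ W) (l h : E d →L[ℝ] ℝ)
    (hh : ∀ w ∈ W, w ≠ x → h w < h x) (hl : ∃ y ∈ W, l x < l y) :
    ∃ μ : ℝ, 0 < μ ∧ (∀ w ∈ W, (l + μ • h) w ≤ (l + μ • h) x) ∧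
      ∃ y ∈ W, l x < l y ∧ (l + μ • h) y = (l + μ • h) x := by
  classical
  obtain ⟨y0, hy0, hly0⟩ := hl
  have hne0 : y0 ≠ x := by
    rintro rfl
    exact lt_irrefl _ hly0
  have hS : (W.erase x).Nonempty := ⟨y0, mem_erase.mpr ⟨hne0, hy0⟩⟩
  obtain ⟨y, hy, hmax⟩ := Finset.exists_max_image (W.erase x)
    (fun w => (l w - l x) / (h x - h w)) hS
  have hyW : y ∈ W := (mem_erase.mp hy).2
  have hyne : y ≠ x := (mem_erase.mp hy).1
  have hpos : 0 < (l y - l x) / (h x - h y) := by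
    refine lt_of_lt_of_le ?_ (hmax y0 (mem_erase.mpr ⟨hne0, hy0⟩))
    exact div_pos (by linarith) (by linarith [hh y0 hy0 hne0])
  refine ⟨(l y - l x) / (h x - h y), hpos, fun w hw => ?_, y, hyW, ?_, ?_⟩
  · simp only [add_apply, smul_apply, smul_eq_mul]
    by_cases hwx : w = x
    · rw [hwx]
    · have h1 := hmax w (mem_erase.mpr ⟨hwx, hw⟩)
      have h2 : 0 < h x - h w := by linarith [hh w hw hwx]
      rw [div_le_iff₀ h2] at h1
      nlinarith
  · have h2 : 0 < h x - h y := by linarith [hh y hyW hyne]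
    have h3 : 0 < l y - l x := by
      by_contra hc
      have : (l y - l x) / (h x - h y) ≤ 0 := div_nonpos_of_nonpos_of_nonneg (by linarith) h2.le
      linarith
    linarith
  · simp only [add_apply, smul_apply, smul_eq_mul]
    have h2 : h x - h y ≠ 0 := by
      have := hh y hyW hyne
      linarith
    field_simp
    ring

/-- a functional that is constant on a spanning set vanishes -/
theorem zero_of_const {W : Finset (E d)} (hW : IsPolytope W) (g : E d →L[ℝ] ℝ) (M : ℝ)
    (hg : ∀ w ∈ W, g w = M) : g = 0 := by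
  have h1 : ∀ z : E d, g z = M := by
    intro z
    have hz : z ∈ affineSpan ℝ (W : Set (E d)) := by rw [hW.1]; trivial
    refine affineSpan_induction (p := fun z => g z = M) hz (fun w hw => hg w hw) ?_
    intro c u v w hu hv hw
    simp only [vsub_eq_sub, vadd_eq_add, map_add, map_smul, map_sub, smul_eq_mul] at *
    rw [hu, hv, hw]
    ring
  have h0 := h1 0
  rw [map_zero] at h0
  ext z
  rw [h1 z, ← h0]
  rfl

/-- from the functional to the face -/
theorem face_of {W : Finset (E d)} (hW : IsPolytope W) {x : E d} (hx : x ∈ W)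
    (l g : E d →L[ℝ] ℝ) (hg0 : g ≠ 0) (hg : ∀ w ∈ W, g w ≤ g x)
    (hy : ∃ y ∈ W, l x < l y ∧ g y = g x) :
    ∃ B : Set (E d), IsFace (W : Set (E d)) B ∧ B ≠ (W : Set (E d)) ∧ x ∈ B ∧
      ∃ y ∈ B, l x < l y := by
  refine ⟨{w | w ∈ (W : Set (E d)) ∧ ∀ z ∈ (W : Set (E d)), g z ≤ g w},
    ⟨g, fun z => Iff.rfl⟩, ?_, ⟨hx, hg⟩, ?_⟩
  · intro hB
    apply hg0
    apply zero_of_const hW g (g x)
    intro w hw
    have h1 : w ∈ {w | w ∈ (W : Set (E d)) ∧ ∀ z ∈ (W : Set (E d)), g z ≤ g w} := by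
      rw [hB]
      exact hw
    exact le_antisymm (hg w hw) (h1.2 x hx)
  · obtain ⟨y, hy1, hy2, hy3⟩ := hy
    refine ⟨y, ⟨hy1, fun z hz => ?_⟩, hy2⟩
    rw [hy3]
    exact hg z hz

end IKG

open IKG in
theorem pr_KG : St_KG := by
  classical
  intro d hd W hW x hx l hl
  obtain ⟨h, hh⟩ := expose hW hx
  obtain ⟨μ, hμ, h1, h2⟩ := slope hx l h hh hl
  by_cases hg : l + μ • h = 0
  · -- choose another functional
    have hk : ∃ k : E d →L[ℝ] ℝ, ∀ a : ℝ, k ≠ a • h := by
      by_contra hcon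
      push Not at hcon
      obtain ⟨a, ha⟩ := hcon (EuclideanSpace.proj (⟨0, by omega⟩ : Fin d))
      obtain ⟨b, hb⟩ := hcon (EuclideanSpace.proj (⟨1, by omega⟩ : Fin d))
      have e1 := congrArg (fun f : E d →L[ℝ] ℝ => f (EuclideanSpace.single (⟨0, by omega⟩ : Fin d) (1 : ℝ))) ha
      have e2 := congrArg (fun f : E d →L[ℝ] ℝ => f (EuclideanSpace.single (⟨1, by omega⟩ : Fin d) (1 : ℝ))) ha
      have e3 := congrArg (fun f : E d →L[ℝ] ℝ => f (EuclideanSpace.single (⟨0, by omega⟩ : Fin d) (1 : ℝ))) hb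
      have e4 := congrArg (fun f : E d →L[ℝ] ℝ => f (EuclideanSpace.single (⟨1, by omega⟩ : Fin d) (1 : ℝ))) hb
      simp [Fin.ext_iff] at e1 e2 e3 e4
      rcases e2 with h5 | h5
      · rw [h5] at e1
        simp at e1
      · rw [h5] at e4
        simp at e4
    obtain ⟨k, hk⟩ := hk
    have hev : ∀ᶠ δ : ℝ in 𝓝[>] 0, ∀ w ∈ W, w ≠ x → (h + δ • k) w < (h + δ • k) x := by
      rw [Filter.eventually_all_finset]
      intro w hw
      by_cases hwx : w = x
      · exact Eventually.of_forall fun δ h => absurd hwx h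
      · have hc1 : Continuous fun δ : ℝ => (h + δ • k) x - (h + δ • k) w := by
          simp only [add_apply, smul_apply, smul_eq_mul]
          fun_prop
        have hc2 : (0 : ℝ) < (h + (0 : ℝ) • k) x - (h + (0 : ℝ) • k) w := by
          simp
          exact hh w hw hwx
        have := (hc1.tendsto 0).eventually (lt_mem_nhds hc2)
        filter_upwards [this.filter_mono nhdsWithin_le_nhds] with δ hδ _
        linarith
    obtain ⟨δ, hδ1, hδ2⟩ := (hev.and self_mem_nhdsWithin).exists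
    have hδ2' : (0 : ℝ) < δ := hδ2
    obtain ⟨μ', hμ', h1', h2'⟩ := slope hx l (h + δ • k) hδ1 hl
    refine face_of hW hx l (l + μ' • (h + δ • k)) ?_ h1' h2'
    intro hz
    apply hk ((μ - μ') / (μ' * δ))
    have hl' : l = - (μ • h) := eq_neg_of_add_eq_zero_left hg
    rw [hl'] at hz
    have hne : μ' * δ ≠ 0 := by positivity
    have h6 : (μ' * δ) • k = (μ - μ') • h := by
      have h7 : (μ' * δ) • k = -(μ • h) + μ' • (h + δ • k) + (μ - μ') • h := by
        rw [smul_add, smul_smul]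
        module
      rw [h7, hz, zero_add]
    rw [div_eq_inv_mul, mul_smul, ← h6, smul_smul, inv_mul_cancel₀ hne, one_smul]
  · exact face_of hW hx l (l + μ • h) hg h1 h2

end Pool.Agent.Work.MP_1f68be_co.KB
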