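import Pool.Agent.Work.MP_1f68be_co.KB.Stmts

set_option autoImplicit false

namespace Pool.Agent.Work.MP_1f68be_co.KB

open Pool.Agent.Work.MP_1f68be_co Finset

open scoped RealInnerProductSpace

namespace IKH

lemma unit_dist {d : ℕ} (u v : E d) (hu : u ≠ 0) (hv : v ≠ 0)
    (h : 2 * ⟪u, v⟫ ≤ ‖u‖ * ‖v‖) : 1 ≤ ‖(‖u‖)⁻¹ • u - (‖v‖)⁻¹ • v‖ := by
  have hu' : 0 < ‖u‖ := norm_pos_iff.2 hu
  have hv' : 0 < ‖v‖ := norm_pos_iff.2 hv
  have h1 : ‖(‖u‖)⁻¹ • u‖ = 1 := by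
    rw [norm_smul, norm_inv, norm_norm, inv_mul_cancel₀ hu'.ne']
  have h2 : ‖(‖v‖)⁻¹ • v‖ = 1 := by
    rw [norm_smul, norm_inv, norm_norm, inv_mul_cancel₀ hv'.ne']
  have h3 : 1 ^ 2 ≤ ‖(‖u‖)⁻¹ • u - (‖v‖)⁻¹ • v‖ ^ 2 := by
    rw [norm_sub_sq_real, h1, h2, real_inner_smul_left, real_inner_smul_right]
    have h4 : 2 * ((‖u‖)⁻¹ * ((‖v‖)⁻¹ * ⟪u, v⟫)) ≤ 1 := by
      have h5 : 2 * ((‖u‖)⁻¹ * ((‖v‖)⁻¹ * ⟪u, v⟫)) = (2 * ⟪u, v⟫) / (‖u‖ * ‖v‖) := by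
        field_simp
      rw [h5, div_le_one (mul_pos hu' hv')]
      exact h
    linarith
  exact (pow_le_pow_iff_left₀ zero_le_one (norm_nonneg _) two_ne_zero).1 h3

lemma half {d : ℕ} (c a p q : E d) (r : ℝ) (hp : dist p c = r) (hq : dist q c = r)
    (ha : dist a c ≤ r) (h : ⟪p - c, q - c⟫ ≤ ⟪p - c, a - c⟫) :
    ‖p - a‖ ^ 2 ≤ ‖p - q‖ ^ 2 := by
  rw [dist_eq_norm] at hp hq ha
  have h1 : p - a = (p - c) - (a - c) := by abel
  have h2 : p - q = (p - c) - (q - c) := by abel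
  rw [h1, h2, norm_sub_sq_real (p - c) (a - c), norm_sub_sq_real (p - c) (q - c), hp, hq]
  have h3 : ‖a - c‖ ^ 2 ≤ r ^ 2 := pow_le_pow_left₀ (norm_nonneg _) ha 2
  linarith

end IKH

open IKH in
theorem pr_KH : St_KH := by
  intro d c a r s hs ha hne hin
  classical
  let g : E d → E d := fun p => (‖p - a‖)⁻¹ • (p - a)
  have hdist : ∀ p ∈ s, ∀ q ∈ s, p ≠ q → 1 ≤ ‖g p - g q‖ := by
    intro p hp q hq hpq
    have hu : p - a ≠ 0 := sub_ne_zero.2 (hne p hp)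
    have hv : q - a ≠ 0 := sub_ne_zero.2 (hne q hq)
    apply unit_dist _ _ hu hv
    have h1 := half c a p q r (hs p hp) (hs q hq) ha (hin p hp q hq hpq)
    have h2 := half c a q p r (hs q hq) (hs p hp) ha (hin q hq p hp hpq.symm)
    have h3 : ‖p - q‖ ^ 2 = ‖p - a‖ ^ 2 - 2 * ⟪p - a, q - a⟫ + ‖q - a‖ ^ 2 := by
      have h4 : p - q = (p - a) - (q - a) := by abel
      rw [h4, norm_sub_sq_real (p - a) (q - a)]
    rw [norm_sub_rev q p] at h2
    rcases le_total ‖p - a‖ ‖q - a‖ with h | h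
    · have h5 : ‖p - a‖ ^ 2 ≤ ‖p - a‖ * ‖q - a‖ := by
        rw [pow_two]
        exact mul_le_mul_of_nonneg_left h (norm_nonneg _)
      linarith
    · have h5 : ‖q - a‖ ^ 2 ≤ ‖p - a‖ * ‖q - a‖ := by
        rw [pow_two]
        exact mul_le_mul_of_nonneg_right h (norm_nonneg _)
      linarith
  have hinj : Set.InjOn g (s : Set (E d)) := by
    intro p hp q hq h
    by_contra hpq
    have h1 := hdist p hp q hq hpq
    rw [h, sub_self, norm_zero] at h1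
    linarith
  have h1 : (s.image g).card ≤ 5 ^ Module.finrank ℝ (E d) := by
    apply Besicovitch.card_le_of_separated
    · intro x hx
      rw [mem_image] at hx
      obtain ⟨p, hp, rfl⟩ := hx
      have hu' : 0 < ‖p - a‖ := norm_pos_iff.2 (sub_ne_zero.2 (hne p hp))
      have h2 : ‖g p‖ = 1 := by
        change ‖(‖p - a‖)⁻¹ • (p - a)‖ = 1
        rw [norm_smul, norm_inv, norm_norm, inv_mul_cancel₀ hu'.ne']
      rw [h2]
      norm_num
    · intro x hx y hy hxy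
      rw [mem_image] at hx hy
      obtain ⟨p, hp, rfl⟩ := hx
      obtain ⟨q, hq, rfl⟩ := hy
      exact hdist p hp q hq (fun h => hxy (by rw [h]))
  rw [card_image_of_injOn hinj] at h1
  have h2 : Module.finrank ℝ (E d) = d := by
    simp [E]
  rwa [h2] at h1

end Pool.Agent.Work.MP_1f68be_co.KB
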