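import Pool.Agent.Work.MP_1f68be_co.KB.Stmts

/-!
# MP_1f68be_co, block KB, item KI: the bound for the points on the sphere (helper19)
-/

set_option autoImplicit false

open scoped InnerProductSpace

namespace Pool.Agent.Work.MP_1f68be_co.KB

open Pool.Agent.Work.MP_1f68be_co Finset

namespace IKI

/-- two different points, `p` on the sphere and `w` in the ball -/
theorem inner_lt {d : ℕ} {c p w : E d} {r : ℝ} (hp : dist p c = r) (hw : dist w c ≤ r)
    (h : w ≠ p) : ⟪p - c, w⟫_ℝ < ⟪p - c, p⟫_ℝ := by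
  have h1 : ‖p - c‖ = r := by rw [← dist_eq_norm, hp]
  have h2 : ‖w - c‖ ≤ r := by rw [← dist_eq_norm]; exact hw
  have h3 : 0 < ‖p - w‖ := norm_pos_iff.mpr (sub_ne_zero.mpr h.symm)
  have h4 : p - w = (p - c) - (w - c) := by abel
  have h5 : ‖(p - c) - (w - c)‖ ^ 2 = ‖p - c‖ ^ 2 - 2 * ⟪p - c, w - c⟫_ℝ + ‖w - c‖ ^ 2 :=
    norm_sub_sq_real _ _
  rw [← h4] at h5
  have h6 : ⟪p - c, p - c⟫_ℝ = ‖p - c‖ ^ 2 := real_inner_self_eq_norm_sq _
  have h7 : ⟪p - c, w - c⟫_ℝ = ⟪p - c, w⟫_ℝ - ⟪p - c, c⟫_ℝ := inner_sub_right _ _ _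
  have h8 : ⟪p - c, p - c⟫_ℝ = ⟪p - c, p⟫_ℝ - ⟪p - c, c⟫_ℝ := inner_sub_right _ _ _
  have h9 : ‖w - c‖ ^ 2 ≤ r ^ 2 := pow_le_pow_left₀ (norm_nonneg _) h2 2
  have h10 : 0 < ‖p - w‖ ^ 2 := by positivity
  rw [h1] at h5 h6
  nlinarith

end IKI

open IKI in
theorem pr_KI (hKG : St_KG) (hKH : St_KH) : St_KI := by
  classical
  intro d hd V A hAV hAne hV hInd
  unfold s0
  refine csSup_le' ?_
  rintro s ⟨W, f, hW, ⟨hbij, hface⟩, c, r, hr, hball, rfl⟩
  obtain ⟨A', hA'⟩ : ∃ A' : Finset (E d), A' = A.image f := ⟨_, rfl⟩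
  have hfW : ∀ v ∈ V, f v ∈ W := fun v hv => by
    have := hbij.mapsTo (Finset.mem_coe.mpr hv)
    exact Finset.mem_coe.mp this
  have hsurj : ∀ w ∈ W, ∃ v ∈ V, f v = w := fun w hw => by
    obtain ⟨v, hv, rfl⟩ := hbij.surjOn (Finset.mem_coe.mpr hw)
    exact ⟨v, Finset.mem_coe.mp hv, rfl⟩
  have hA'W : ∀ a ∈ A', a ∈ W := by
    intro a ha
    rw [hA', mem_image] at ha
    obtain ⟨v, hv, rfl⟩ := ha
    exact hfW v (hAV hv)
  have hA'ne : A'.Nonempty := by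
    rw [hA']
    exact hAne.image f
  have hA'c : A'.card ≤ A.card := by
    rw [hA']
    exact card_image_le
  obtain ⟨S, hS⟩ : ∃ S : Finset (E d), S = (W.filter fun w => dist w c = r).filter (· ∉ A') :=
    ⟨_, rfl⟩
  have hSm : ∀ p, p ∈ S ↔ (p ∈ W ∧ dist p c = r) ∧ p ∉ A' := by
    intro p
    rw [hS, mem_filter, mem_filter]
  -- the nearest point of `A'`
  have hex : ∀ p : E d, ∃ a ∈ A', ∀ b ∈ A', ⟪p - c, b - c⟫_ℝ ≤ ⟪p - c, a - c⟫_ℝ := fun p =>
    A'.exists_max_image (fun a => ⟪p - c, a - c⟫_ℝ) hA'ne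
  choose a ha hamax using hex
  have key : ∀ p ∈ S, ∀ q ∈ W, q ∉ A' → q ≠ p → ⟪p - c, q - c⟫_ℝ ≤ ⟪p - c, a p - c⟫_ℝ := by
    intro p hp q hq hqA hqp
    by_contra hcon
    push Not at hcon
    obtain ⟨⟨hpW, hpr⟩, hpA⟩ := (hSm p).mp hp
    obtain ⟨w, hw, hwmax⟩ := (W.erase p).exists_max_image (fun y => ⟪p - c, y⟫_ℝ)
      ⟨q, mem_erase.mpr ⟨hqp, hq⟩⟩
    have hw' := mem_erase.mp hw
    have hwq : ⟪p - c, q⟫_ℝ ≤ ⟪p - c, w⟫_ℝ := hwmax q (mem_erase.mpr ⟨hqp, hq⟩)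
    have hwA : w ∉ A' := by
      intro h
      have h1 := hamax p w h
      have h2 : ⟪p - c, w - c⟫_ℝ = ⟪p - c, w⟫_ℝ - ⟪p - c, c⟫_ℝ := inner_sub_right _ _ _
      have h3 : ⟪p - c, q - c⟫_ℝ = ⟪p - c, q⟫_ℝ - ⟪p - c, c⟫_ℝ := inner_sub_right _ _ _
      linarith
    have hlt : ⟪p - c, w⟫_ℝ < ⟪p - c, p⟫_ℝ := inner_lt hpr (hball w hw'.2) hw'.1
    obtain ⟨B, hB, hBne, hwB, y, hyB, hy⟩ := hKG d hd W hW w hw'.2 (innerSL ℝ (p - c))
      ⟨p, hpW, hlt⟩
    have hBW : ∀ z ∈ B, z ∈ W := by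
      obtain ⟨l, hl⟩ := hB
      intro z hz
      exact Finset.mem_coe.mp ((hl z).mp hz).1
    have hyp : y = p := by
      by_contra hne
      have h1 := hwmax y (mem_erase.mpr ⟨hne, hBW y hyB⟩)
      have h2 : ⟪p - c, w⟫_ℝ < ⟪p - c, y⟫_ℝ := hy
      exact absurd h1 (not_le.mpr h2)
    rw [hyp] at hyB
    obtain ⟨B', hB'⟩ : ∃ B' : Set (E d), B' = {v | v ∈ (V : Set (E d)) ∧ f v ∈ B} := ⟨_, rfl⟩
    have himg : f '' B' = B := by
      rw [hB']
      ext z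
      constructor
      · rintro ⟨v, hv, rfl⟩
        exact hv.2
      · intro hz
        obtain ⟨v, hv, hvz⟩ := hsurj z (hBW z hz)
        exact ⟨v, ⟨Finset.mem_coe.mpr hv, by rw [hvz]; exact hz⟩, hvz⟩
    have hB'V : B' ⊆ (V : Set (E d)) := by
      rw [hB']
      exact fun v hv => hv.1
    have hB'f : IsFace (V : Set (E d)) B' := (hface B' hB'V).mpr (by rw [himg]; exact hB)
    have hB'ne : B' ≠ (V : Set (E d)) := by
      intro h
      apply hBne
      rw [← himg, h, hbij.image_eq]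
    obtain ⟨v1, hv1, hv1w⟩ := hsurj w hw'.2
    obtain ⟨v2, hv2, hv2p⟩ := hsurj p hpW
    have h1 : v1 ∈ B' := by
      rw [hB']
      exact ⟨Finset.mem_coe.mpr hv1, by rw [hv1w]; exact hwB⟩
    have h2 : v2 ∈ B' := by
      rw [hB']
      exact ⟨Finset.mem_coe.mpr hv2, by rw [hv2p]; exact hyB⟩
    have h3 : v1 ∉ A := by
      intro h
      apply hwA
      rw [hA', ← hv1w]
      exact mem_image_of_mem f h
    have h4 : v2 ∉ A := by
      intro h
      apply hpA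
      rw [hA', ← hv2p]
      exact mem_image_of_mem f h
    have h5 := hInd B' hB'f hB'ne v1 h1 v2 h2 h3 h4
    apply hw'.1
    rw [← hv1w, ← hv2p, h5]
  -- the number of the points in `S`
  have hScard : S.card ≤ 5 ^ d * A.card := by
    refine (card_le_mul_card_image (f := a) S (5 ^ d) ?_).trans ?_
    · intro b hb
      obtain ⟨p0, hp0, hp0b⟩ := mem_image.mp hb
      have hbA : b ∈ A' := hp0b ▸ ha p0
      refine hKH d c b r (S.filter fun p => a p = b) ?_ (hball b (hA'W b hbA)) ?_ ?_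
      · intro p hp
        exact (((hSm p).mp (mem_filter.mp hp).1).1).2
      · intro p hp h
        exact ((hSm p).mp (mem_filter.mp hp).1).2 (h ▸ hbA)
      · intro p hp q hq hpq
        have h1 := (mem_filter.mp hp)
        have h2 := (hSm q).mp (mem_filter.mp hq).1
        have h3 := key p h1.1 q h2.1.1 h2.2 hpq.symm
        rw [h1.2] at h3
        exact h3
    · refine Nat.mul_le_mul_left _ (le_trans (card_le_card ?_) hA'c)
      intro b hb
      obtain ⟨p0, _, rfl⟩ := mem_image.mp hb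
      exact ha p0
  have h1 := card_filter_add_card_filter_not (s := W.filter fun w => dist w c = r) (· ∈ A')
  have h2 : ((W.filter fun w => dist w c = r).filter (· ∈ A')).card ≤ A.card := by
    refine le_trans (card_le_card ?_) hA'c
    intro z hz
    exact (mem_filter.mp hz).2
  have h3 : ((W.filter fun w => dist w c = r).filter (fun z => ¬ z ∈ A')).card ≤ 5 ^ d * A.card := by
    rw [hS] at hScard
    exact hScard
  calc (W.filter fun w => dist w c = r).card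
      ≤ A.card + 5 ^ d * A.card := by omega
    _ = (5 ^ d + 1) * A.card := by ring

end Pool.Agent.Work.MP_1f68be_co.KB
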