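import Pool.Agent.Work.MP_1f68be_co.KB.Stmts

/-!
# MP_1f68be_co, block KB, item KJ: the exponent (helper19)
-/

set_option autoImplicit false

open Filter Topology

namespace Pool.Agent.Work.MP_1f68be_co.KB

open Pool.Agent.Work.MP_1f68be_co Finset

namespace IKJ

/-- The numerical limit. -/
theorem tendsto_ratio (a b : ℝ) {m : ℝ} (hm : 0 < m) :
    Tendsto (fun L : ℝ => (a + L) / (m * L - b)) atTop (𝓝 (1 / m)) := by
  have h1 : Tendsto (fun L : ℝ => (a / L + 1) / (m - b / L)) atTop (𝓝 ((0 + 1) / (m - 0))) :=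
    ((tendsto_const_nhds.div_atTop tendsto_id).add_const 1).div
      (tendsto_const_nhds.sub (tendsto_const_nhds.div_atTop tendsto_id)) (by
        rw [sub_zero]; exact hm.ne')
  rw [zero_add, sub_zero] at h1
  refine h1.congr' ?_
  filter_upwards [eventually_gt_atTop 0] with L hL
  have e1 : a / L + 1 = (a + L) / L := by field_simp
  have e2 : m - b / L = (m * L - b) / L := by field_simp
  rw [e1, e2, div_div_div_cancel_right₀ hL.ne']

/-- powers of two -/
theorem lt_two_pow_half : ∀ n : ℕ, 2 * (n + 3) + 1 < 2 ^ (n + 3) := by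
  intro n
  induction n with
  | zero => norm_num
  | succ n ih =>
    have h : 2 ^ (n + 1 + 3) = 2 * 2 ^ (n + 3) := by ring
    rw [h]
    omega

/-- lower bound for the binomial coefficient -/
theorem choose_ge (n m : ℕ) : ((n : ℝ) + 1) ^ m / (m.factorial : ℝ) ≤ ((n + m).choose m : ℝ) := by
  have h := Nat.pow_le_choose (α := ℝ) m (n + m)
  have h1 : n + m + 1 - m = n + 1 := by omega
  rw [h1] at h
  push_cast at h
  exact h

/-- the ratio for one polytope -/
theorem ratio_le {d m n s c A : ℕ} (hm : 1 ≤ m) (hs : s ≤ (5 ^ d + 1) * A)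
    (hA : A ≤ 2 * (n + m) + 1) (hc : (n + m).choose m ≤ c)
    (hpos : 0 < (m : ℝ) * Real.log ((n : ℝ) + 1) - Real.log (m.factorial : ℝ)) :
    Real.log s / Real.log c ≤ ((Real.log (5 ^ d + 1) + Real.log (2 * m + 1)) +
      Real.log ((n : ℝ) + 1)) / ((m : ℝ) * Real.log ((n : ℝ) + 1) - Real.log (m.factorial : ℝ)) := by
  have hn : (0 : ℝ) < (n : ℝ) + 1 := by positivity
  have hm' : (1 : ℝ) ≤ m := by exact_mod_cast hm
  have h5 : (0 : ℝ) < (5 : ℝ) ^ d + 1 := by positivity
  have h51 : (1 : ℝ) ≤ (5 : ℝ) ^ d + 1 := by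
    have : (0 : ℝ) ≤ (5 : ℝ) ^ d := by positivity
    linarith
  have h2m : (0 : ℝ) < 2 * (m : ℝ) + 1 := by positivity
  have hnum : 0 ≤ (Real.log (5 ^ d + 1) + Real.log (2 * m + 1)) + Real.log ((n : ℝ) + 1) := by
    have a1 := Real.log_nonneg h51
    have a2 : 0 ≤ Real.log (2 * (m : ℝ) + 1) := Real.log_nonneg (by linarith)
    have a3 : 0 ≤ Real.log ((n : ℝ) + 1) := Real.log_nonneg (by
      have : (0 : ℝ) ≤ n := Nat.cast_nonneg n
      linarith)
    linarith
  have hlog : Real.log s ≤ (Real.log (5 ^ d + 1) + Real.log (2 * m + 1)) +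
      Real.log ((n : ℝ) + 1) := by
    rcases Nat.eq_zero_or_pos s with h0 | h0
    · rw [h0, Nat.cast_zero, Real.log_zero]
      exact hnum
    · have h1 : (s : ℝ) ≤ ((5 : ℝ) ^ d + 1) * (2 * m + 1) * ((n : ℝ) + 1) := by
        have h2 : (s : ℝ) ≤ ((5 : ℝ) ^ d + 1) * (2 * ((n : ℝ) + m) + 1) := by
          have h3 : s ≤ (5 ^ d + 1) * (2 * (n + m) + 1) :=
            hs.trans (Nat.mul_le_mul_left _ hA)
          exact_mod_cast h3
        refine h2.trans ?_
        rw [mul_assoc]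
        refine mul_le_mul_of_nonneg_left ?_ h5.le
        have h4 : (0 : ℝ) ≤ n := Nat.cast_nonneg n
        nlinarith
      have h6 : (0 : ℝ) < s := by exact_mod_cast h0
      refine (Real.log_le_log h6 h1).trans ?_
      rw [Real.log_mul (by positivity) hn.ne', Real.log_mul h5.ne' h2m.ne']
  have hden : (m : ℝ) * Real.log ((n : ℝ) + 1) - Real.log (m.factorial : ℝ) ≤ Real.log c := by
    have h7 : (0 : ℝ) < (m.factorial : ℝ) := by exact_mod_cast m.factorial_pos
    rw [← Real.log_pow, ← Real.log_div (by positivity) h7.ne']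
    refine Real.log_le_log (by positivity) ((choose_ge n m).trans ?_)
    exact_mod_cast hc
  exact div_le_div₀ hnum hlog hpos hden

end IKJ

open IKJ in
theorem IKJ.exponent_le (hKF : St_KF) (hKI : St_KI) {d : ℕ} (hd : 4 ≤ d) :
    simplicialExponent d ≤ ((1 / ((d / 2 : ℕ) : ℝ) : ℝ) : EReal) := by
  obtain ⟨m, hm⟩ : ∃ m : ℕ, m = d / 2 := ⟨_, rfl⟩
  have hm2 : 2 ≤ m := by omega
  have hmp : (0 : ℝ) < m := by exact_mod_cast (by omega : 0 < m)
  rw [← hm]
  refine EReal.le_of_forall_lt_iff_le.1 fun z hz => ?_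
  have hz' : 1 / (m : ℝ) < z := by exact_mod_cast hz
  unfold simplicialExponent
  refine Filter.liminf_le_of_frequently_le' ?_
  rw [Filter.frequently_comap, Filter.frequently_atTop]
  intro N
  have hL : Tendsto (fun n : ℕ => Real.log ((n : ℝ) + 1)) atTop atTop :=
    Real.tendsto_log_atTop.comp (tendsto_natCast_atTop_atTop.atTop_add tendsto_const_nhds)
  have hev : ∀ᶠ n : ℕ in atTop, ((Real.log (5 ^ d + 1) + Real.log (2 * m + 1)) +
      Real.log ((n : ℝ) + 1)) / ((m : ℝ) * Real.log ((n : ℝ) + 1) -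
      Real.log (m.factorial : ℝ)) < z :=
    ((tendsto_ratio (Real.log (5 ^ d + 1) + Real.log (2 * m + 1)) (Real.log (m.factorial : ℝ))
      hmp).comp hL).eventually_lt_const hz'
  have hev2 : ∀ᶠ n : ℕ in atTop, Real.log (m.factorial : ℝ) < Real.log ((n : ℝ) + 1) :=
    hL.eventually_gt_atTop _
  obtain ⟨n, ⟨hn1, hn2⟩, hn3, hn4⟩ := ((hev.and hev2).and
    ((eventually_ge_atTop (N * m.factorial)).and (eventually_ge_atTop d))).exists
  obtain ⟨V, A, hAV, hAne, hAc, hVp, hVs, hVc, hInd⟩ := hKF d (n + m) (by omega) (by omega)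
  rw [← hm] at hVc
  have hs := hKI d (by omega) V A hAV hAne hVp hInd
  have hpos : 0 < (m : ℝ) * Real.log ((n : ℝ) + 1) - Real.log (m.factorial : ℝ) := by
    have h1 : 0 ≤ Real.log ((n : ℝ) + 1) := Real.log_nonneg (by
      have : (0 : ℝ) ≤ n := Nat.cast_nonneg n
      linarith)
    have h2 : (1 : ℝ) ≤ m := by exact_mod_cast (by omega : 1 ≤ m)
    nlinarith
  refine ⟨V.card, ?_, ⟨V, hVp, hVs⟩, rfl, ?_⟩
  · have h1 := choose_ge n m
    have h2 : (N : ℝ) ≤ ((n : ℝ) + 1) ^ m / (m.factorial : ℝ) := by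
      have h3 : (0 : ℝ) < (m.factorial : ℝ) := by exact_mod_cast m.factorial_pos
      rw [le_div_iff₀ h3]
      have h4 : ((N * m.factorial : ℕ) : ℝ) ≤ n := by exact_mod_cast hn3
      push_cast at h4
      have h5 : (n : ℝ) + 1 ≤ ((n : ℝ) + 1) ^ m := by
        refine le_self_pow₀ ?_ (by omega)
        have : (0 : ℝ) ≤ n := Nat.cast_nonneg n
        linarith
      linarith
    have h6 : (N : ℝ) ≤ ((n + m).choose m : ℝ) := h2.trans h1
    have h7 : N ≤ (n + m).choose m := by exact_mod_cast h6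
    exact h7.trans hVc
  · have h1 := ratio_le (d := d) (by omega : 1 ≤ m) hs hAc hVc hpos
    exact_mod_cast h1.trans hn1.le

open IKJ in
theorem pr_KJ (hKF : St_KF) (hKI : St_KI) : St_KJ := by
  intro d hd
  refine ⟨IKJ.exponent_le hKF hKI hd, fun hd6 => ?_⟩
  refine lt_of_le_of_lt (IKJ.exponent_le hKF hKI hd) ?_
  rw [EReal.coe_lt_coe_iff]
  obtain ⟨m, hm⟩ : ∃ m : ℕ, m = d / 2 := ⟨_, rfl⟩
  rw [← hm]
  have hm3 : 3 ≤ m := by omega
  have hmp : (0 : ℝ) < m := by exact_mod_cast (by omega : 0 < m)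
  have hd' : (1 : ℝ) < d := by exact_mod_cast (by omega : 1 < d)
  have hlogd : 0 < Real.log d := Real.log_pos hd'
  have h1 : d < 2 ^ m := by
    have h2 := lt_two_pow_half (m - 3)
    have h3 : m - 3 + 3 = m := by omega
    rw [h3] at h2
    omega
  have h4 : Real.log d < m * Real.log 2 := by
    rw [← Real.log_pow]
    refine Real.log_lt_log (by linarith) ?_
    exact_mod_cast h1
  rw [div_lt_div_iff₀ hmp hlogd]
  linarith

end Pool.Agent.Work.MP_1f68be_co.KB
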