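import Pool.Agent.Work.MP_1f68be_co.KB.I_KA
import Pool.Agent.Work.MP_1f68be_co.KB.I_KB
import Pool.Agent.Work.MP_1f68be_co.KB.I_KC
import Pool.Agent.Work.MP_1f68be_co.KB.I_KD
import Pool.Agent.Work.MP_1f68be_co.KB.I_KE
import Pool.Agent.Work.MP_1f68be_co.KB.I_KF
import Pool.Agent.Work.MP_1f68be_co.KB.I_KG
import Pool.Agent.Work.MP_1f68be_co.KB.I_KH
import Pool.Agent.Work.MP_1f68be_co.KB.I_KI
import Pool.Agent.Work.MP_1f68be_co.KB.I_KJ

/-!
# MP_1f68be_co, block KB: all items together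
-/

namespace Pool.Agent.Work.MP_1f68be_co.KB

theorem all_KA : St_KA := pr_KA
theorem all_KB : St_KB := pr_KB
theorem all_KC : St_KC := pr_KC
theorem all_KD : St_KD := pr_KD
theorem all_KE : St_KE := pr_KE all_KA all_KB all_KC all_KD
theorem all_KF : St_KF := pr_KF all_KA all_KC all_KE
theorem all_KG : St_KG := pr_KG
theorem all_KH : St_KH := pr_KH
theorem all_KI : St_KI := pr_KI all_KG all_KH
theorem all_KJ : St_KJ := pr_KJ all_KF all_KI

end Pool.Agent.Work.MP_1f68be_co.KB
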