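import Mathlib
import Pool.Agent.Work.MP_1f68be_co.Defs

/-!
# MP_1f68be_co, block KB (kissing bound): definitions

Captain helper23.  Points stacked on the facets of a cyclic `d`-polytope with `2k + 1` vertices: of the
`(k choose m)` stacked points, `m = d / 2`, at most `5 ^ d (2 k + 1)` can lie on the sphere when the
polytope lies in the ball.
-/

namespace Pool.Agent.Work.MP_1f68be_co.KB

open Pool.Agent.Work.MP_1f68be_co Finset

/-- the moment curve at the parameter `t` -/
noncomputable def gam (d : ℕ) (t : ℕ) : E d := WithLp.toLp 2 fun i : Fin d => (t : ℝ) ^ ((i : ℕ) + 1)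

/-- the parameters of the vertices of a facet: pairs `2j+1, 2j+2`, and `0` if `d` is odd -/
def SS (d : ℕ) (J : Finset ℕ) : Finset ℕ :=
  (J.biUnion fun j => {2 * j + 1, 2 * j + 2}) ∪ (if d % 2 = 1 then {0} else ∅)

/-- the parameters -/
def TT (k : ℕ) : Finset ℕ := range (2 * k + 1)

/-- the index set of the facets used -/
def JJ (d k : ℕ) : Finset (Finset ℕ) := (range k).powersetCard (d / 2)

/-- barycentre of a facet -/
noncomputable def bar (d : ℕ) (J : Finset ℕ) : E d :=
  ((SS d J).card : ℝ)⁻¹ • ∑ s ∈ SS d J, gam d s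

/-- centroid of the points of the moment curve -/
noncomputable def cen (d k : ℕ) : E d := ((TT k).card : ℝ)⁻¹ • ∑ t ∈ TT k, gam d t

/-- the stacked point -/
noncomputable def pS (d k : ℕ) (ε : ℝ) (J : Finset ℕ) : E d := (1 + ε) • bar d J - ε • cen d k

/-- the points of the moment curve -/
noncomputable def AA (d k : ℕ) : Set (E d) := gam d '' (TT k : Set ℕ)

/-- the properties of a good `ε` -/
structure Good (d k : ℕ) (ε : ℝ) : Prop where
  /-- every stacked point is exposed -/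
  expo : ∀ J ∈ JJ d k, ∃ l : E d →L[ℝ] ℝ, ∃ M : ℝ, (∀ s ∈ SS d J, l (gam d s) = M) ∧
    M < l (pS d k ε J) ∧ (∀ t ∈ TT k, l (gam d t) ≤ M) ∧
    ∀ J' ∈ JJ d k, J' ≠ J → l (pS d k ε J') < M
  /-- every point of the moment curve is exposed -/
  expoT : ∀ t ∈ TT k, ∃ l : E d →L[ℝ] ℝ, (∀ s ∈ TT k, s ≠ t → l (gam d s) < l (gam d t)) ∧
    ∀ J ∈ JJ d k, l (pS d k ε J) < l (gam d t)
  /-- midpoints of a stacked point and a point outside the facet -/
  mid1 : ∀ J ∈ JJ d k, ∀ t ∈ TT k, t ∉ SS d J →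
    (1 / 2 : ℝ) • pS d k ε J + (1 / 2 : ℝ) • gam d t ∈ interior (convexHull ℝ (AA d k))
  /-- midpoints of two stacked points -/
  mid2 : ∀ J ∈ JJ d k, ∀ J' ∈ JJ d k, J ≠ J' →
    (1 / 2 : ℝ) • pS d k ε J + (1 / 2 : ℝ) • pS d k ε J' ∈ interior (convexHull ℝ (AA d k))

/-- no proper face of `V` contains two points outside `A` -/
def Indep {d : ℕ} (V A : Finset (E d)) : Prop :=
  ∀ B : Set (E d), IsFace (V : Set (E d)) B → B ≠ (V : Set (E d)) →
    ∀ x ∈ B, ∀ y ∈ B, x ∉ A → y ∉ A → x = y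

end Pool.Agent.Work.MP_1f68be_co.KB
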