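import Pool.Agent.Work.MP_1f68be_co.KB.Stmts

/-!
# MP_1f68be_co, block KB, item KA: facets of the cyclic polytope
-/

open scoped InnerProductSpace
open Filter Topology

namespace Pool.Agent.Work.MP_1f68be_co.KB

open Pool.Agent.Work.MP_1f68be_co Finset

namespace IKA

/-- a polynomial as a functional on the moment curve -/
theorem functional (d : ℕ) (P : Polynomial ℝ) (hP : P.natDegree ≤ d) :
    ∃ l : E d →L[ℝ] ℝ, ∀ t : ℕ, l (gam d t) = P.eval (t : ℝ) - P.coeff 0 := by
  refine ⟨∑ i : Fin d, P.coeff ((i : ℕ) + 1) • (EuclideanSpace.proj i : E d →L[ℝ] ℝ), fun t => ?_⟩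
  rw [Polynomial.eval_eq_sum_range' (Nat.lt_succ_of_le hP), Finset.sum_range_succ']
  simp [gam, Finset.sum_range]

theorem mem_pairs (J : Finset ℕ) (t : ℕ) :
    t ∈ (J.biUnion fun j => ({2 * j + 1, 2 * j + 2} : Finset ℕ)) ↔
      ∃ j ∈ J, t = 2 * j + 1 ∨ t = 2 * j + 2 := by
  simp

theorem card_pairs (J : Finset ℕ) :
    (J.biUnion fun j => ({2 * j + 1, 2 * j + 2} : Finset ℕ)).card = 2 * J.card := by
  rw [Finset.card_biUnion]
  · rw [Finset.sum_congr rfl (g := fun _ => 2), Finset.sum_const, smul_eq_mul, mul_comm]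
    intro j _
    rw [Finset.card_pair]
    omega
  · intro i _ j _ hij
    refine Finset.disjoint_left.mpr ?_
    intro t ht ht'
    simp only [mem_insert, mem_singleton] at ht ht'
    omega

theorem mem_SS (d : ℕ) (J : Finset ℕ) (t : ℕ) :
    t ∈ SS d J ↔ (∃ j ∈ J, t = 2 * j + 1 ∨ t = 2 * j + 2) ∨ (d % 2 = 1 ∧ t = 0) := by
  unfold SS
  rw [Finset.mem_union, mem_pairs]
  by_cases h : d % 2 = 1
  · simp [h]
  · simp [h]

theorem card_SS (d : ℕ) (J : Finset ℕ) (hJ : J.card = d / 2) : (SS d J).card = d := by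
  unfold SS
  rw [Finset.card_union_of_disjoint, card_pairs, hJ]
  · split_ifs with h
    · simp
      omega
    · simp
      omega
  · rw [Finset.disjoint_left]
    intro t ht ht'
    rw [mem_pairs] at ht
    obtain ⟨j, _, hj⟩ := ht
    split_ifs at ht' with h
    · simp at ht'
      omega
    · simp at ht'

/-- the polynomial of a facet -/
noncomputable def pol (d : ℕ) (J : Finset ℕ) : Polynomial ℝ :=
  (∏ j ∈ J, (Polynomial.X - Polynomial.C ((2 * j + 1 : ℕ) : ℝ)) *
    (Polynomial.X - Polynomial.C ((2 * j + 2 : ℕ) : ℝ))) *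
    (if d % 2 = 1 then Polynomial.X else 1)

theorem pol_deg (d : ℕ) (J : Finset ℕ) (hJ : J.card = d / 2) : (pol d J).natDegree ≤ d := by
  unfold pol
  refine (Polynomial.natDegree_mul_le).trans ?_
  have h1 : (∏ j ∈ J, (Polynomial.X - Polynomial.C ((2 * j + 1 : ℕ) : ℝ)) *
    (Polynomial.X - Polynomial.C ((2 * j + 2 : ℕ) : ℝ))).natDegree ≤ 2 * J.card := by
    refine (Polynomial.natDegree_prod_le _ _).trans ?_
    refine (Finset.sum_le_card_nsmul _ _ 2 fun j _ => ?_).trans (by rw [smul_eq_mul, mul_comm])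
    refine (Polynomial.natDegree_mul_le).trans ?_
    rw [Polynomial.natDegree_X_sub_C, Polynomial.natDegree_X_sub_C]
  split_ifs with h
  · rw [Polynomial.natDegree_X]
    omega
  · rw [Polynomial.natDegree_one]
    omega

theorem pol_eval (d : ℕ) (J : Finset ℕ) (t : ℕ) : (pol d J).eval (t : ℝ) =
    (∏ j ∈ J, ((t : ℝ) - (2 * j + 1)) * ((t : ℝ) - (2 * j + 2))) *
    (if d % 2 = 1 then (t : ℝ) else 1) := by
  unfold pol
  rw [Polynomial.eval_mul, Polynomial.eval_prod]
  congr 1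
  · simp
  · split_ifs <;> simp

theorem factor_nonneg (j t : ℕ) (h : ¬ (t = 2 * j + 1 ∨ t = 2 * j + 2)) :
    0 < ((t : ℝ) - (2 * j + 1)) * ((t : ℝ) - (2 * j + 2)) := by
  rcases lt_or_ge t (2 * j + 1) with h1 | h1
  · have h2 : (t : ℝ) + 1 ≤ 2 * j + 1 := by exact_mod_cast h1
    nlinarith
  · have h3 : 2 * j + 3 ≤ t := by omega
    have h2 : (2 * j + 3 : ℝ) ≤ t := by exact_mod_cast h3
    nlinarith

theorem pol_pos (d : ℕ) (J : Finset ℕ) (t : ℕ) (ht : t ∉ SS d J) : 0 < (pol d J).eval (t : ℝ) := by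
  rw [mem_SS] at ht
  push Not at ht
  rw [pol_eval]
  apply mul_pos
  · apply Finset.prod_pos
    intro j hj
    apply factor_nonneg
    have := ht.1 j hj
    tauto
  · split_ifs with h
    · have := ht.2 h
      exact_mod_cast Nat.pos_of_ne_zero this
    · exact one_pos

theorem pol_zero (d : ℕ) (J : Finset ℕ) (t : ℕ) (ht : t ∈ SS d J) : (pol d J).eval (t : ℝ) = 0 := by
  rw [mem_SS] at ht
  rw [pol_eval]
  rcases ht with ⟨j, hj, h⟩ | ⟨h, h'⟩
  · have : (∏ j ∈ J, ((t : ℝ) - (2 * j + 1)) * ((t : ℝ) - (2 * j + 2))) = 0 := by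
      apply Finset.prod_eq_zero hj
      rcases h with h | h
      · rw [h]
        push_cast
        ring
      · rw [h]
        push_cast
        ring
    rw [this, zero_mul]
  · rw [if_pos h, h']
    simp

end IKA

open IKA in
theorem pr_KA : St_KA := by
  intro d k J hJ
  rw [JJ, Finset.mem_powersetCard] at hJ
  obtain ⟨hJ1, hJ2⟩ := hJ
  refine ⟨card_SS d J hJ2, ?_, ?_⟩
  · intro t ht
    rw [mem_SS] at ht
    rw [TT, Finset.mem_range]
    rcases ht with ⟨j, hj, h⟩ | ⟨h, h'⟩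
    · have := Finset.mem_range.mp (hJ1 hj)
      omega
    · omega
  · obtain ⟨l, hl⟩ := functional d (pol d J) (pol_deg d J hJ2)
    refine ⟨-l, (pol d J).coeff 0, fun s hs => ?_, fun t ht => ?_⟩
    · rw [neg_apply, hl, pol_zero d J s hs]
      ring
    · rw [neg_apply, hl]
      have := pol_pos d J t ht
      linarith

end Pool.Agent.Work.MP_1f68be_co.KB
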